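import Pool.Agent.N549.HG.Main

/-!
# Packings inside random point sets of the torus: the upper bound
-/

set_option autoImplicit false

namespace Pool.Agent.U279.PR

open MeasureTheory Set Finset ProbabilityTheory
open scoped ENNReal NNReal
open Pool.Agent.N549.HG

variable {n N : ℕ} {r : ℝ}

instance : IsProbabilityMeasure (vol n) := by unfold vol; infer_instance

/-- The law of `N` independent uniform points. -/
noncomputable def law (n N : ℕ) : Measure (Fin N → Torus n) := Measure.pi fun _ : Fin N => vol n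

instance : IsProbabilityMeasure (law n N) := by unfold law; infer_instance

/-- The points with indices in `s` form a packing. -/
def Pk (r : ℝ) (s : Finset (Fin N)) (X : Fin N → Torus n) : Prop :=
  ∀ i ∈ s, ∀ j ∈ s, i ≠ j → r ^ 2 ≤ sqd (X i) (X j)

theorem Pk.mono {s t : Finset (Fin N)} {X : Fin N → Torus n} (h : Pk r t X) (hst : s ⊆ t) :
    Pk r s X := fun i hi j hj hij => h i (hst hi) j (hst hj) hij

/-- The largest size of a packing among the points. -/
noncomputable def best (r : ℝ) (X : Fin N → Torus n) : ℕ :=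
  sSup {k | ∃ s : Finset (Fin N), Pk r s X ∧ s.card = k}

theorem best_bdd (X : Fin N → Torus n) :
    BddAbove {k | ∃ s : Finset (Fin N), Pk r s X ∧ s.card = k} :=
  ⟨N, by rintro _ ⟨s, -, rfl⟩; simpa using s.card_le_univ⟩

theorem exists_best (r : ℝ) (X : Fin N → Torus n) :
    ∃ s : Finset (Fin N), Pk r s X ∧ s.card = best r X :=
  Nat.sSup_mem (s := {k | ∃ s : Finset (Fin N), Pk r s X ∧ s.card = k})
    ⟨0, ∅, fun i hi => absurd hi (Finset.notMem_empty i), rfl⟩ (best_bdd X)

theorem le_best {X : Fin N → Torus n} {s : Finset (Fin N)} (h : Pk r s X) :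
    s.card ≤ best r X := le_csSup (best_bdd X) ⟨s, h, rfl⟩

theorem le_best_iff {X : Fin N → Torus n} {k : ℕ} :
    k ≤ best r X ↔ ∃ s : Finset (Fin N), s.card = k ∧ Pk r s X := by
  constructor
  · intro h
    obtain ⟨s, hs, hc⟩ := exists_best r X
    obtain ⟨t, ht, htc⟩ := Finset.exists_subset_card_eq (s := s) (n := k) (by omega)
    exact ⟨t, htc, hs.mono ht⟩
  · rintro ⟨s, rfl, hs⟩
    exact le_best hs

/-- The law of a subfamily. -/
theorem map_inj {k : ℕ} {f : Fin k → Fin N} (hf : Function.Injective f) :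
    (law n N).map (fun X i => X (f i)) = law n k := by
  have h1 : iIndepFun (fun (i : Fin N) (X : Fin N → Torus n) => X i) (law n N) :=
    iIndepFun_pi (X := fun _ x => x) (μ := fun _ : Fin N => vol n) fun i => aemeasurable_id
  have h2 := h1.precomp hf
  rw [iIndepFun_iff_map_fun_eq_pi_map (fun i => (measurable_pi_apply _).aemeasurable)] at h2
  rw [h2]
  unfold law
  congr 1
  funext i
  exact (measurePreserving_eval (fun _ : Fin N => vol n) (f i)).map_eq

theorem meas_sqd (n : ℕ) : Measurable fun p : Torus n × Torus n => sqd p.1 p.2 :=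
  (Pool.Agent.N342.HG.cont_sqd n).measurable

theorem meas_gen {Ω : Type} [MeasurableSpace Ω] {k : ℕ} (f : Ω → Ω → ℝ)
    (hf : Measurable fun p : Ω × Ω => f p.1 p.2) (c : ℝ) (i j : Fin k) :
    MeasurableSet {x : Fin k → Ω | c ≤ f (x i) (x j)} := by
  have h : Measurable fun x : Fin k → Ω => (x i, x j) :=
    (measurable_pi_apply i).prodMk (measurable_pi_apply j)
  exact measurableSet_le measurable_const (hf.comp h)

theorem meas_pair {k : ℕ} (i j : Fin k) :
    MeasurableSet {x : Fin k → Torus n | r ^ 2 ≤ sqd (x i) (x j)} :=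
  meas_gen (Ω := Torus n) sqd (meas_sqd n) (r ^ 2) i j

theorem meas_conf (k : ℕ) :
    MeasurableSet {x : Fin k → Torus n | ∀ i j, i < j → r ^ 2 ≤ sqd (x i) (x j)} := by
  have h : {x : Fin k → Torus n | ∀ i j, i < j → r ^ 2 ≤ sqd (x i) (x j)} =
      ⋂ i, ⋂ j, ⋂ _ : i < j, {x : Fin k → Torus n | r ^ 2 ≤ sqd (x i) (x j)} := by
    ext x
    simp
  rw [h]
  exact MeasurableSet.iInter fun i => MeasurableSet.iInter fun j => MeasurableSet.iInter fun _ =>
    meas_pair i j

/-- The probability that the points with indices in a given set form a packing. -/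
theorem law_Pk {k : ℕ} (s : Finset (Fin N)) (hs : s.card = k) :
    (law n N).real {X | Pk r s X} = conf n r k := by
  have hf := (s.orderEmbOfFin hs).injective
  have h1 : {X : Fin N → Torus n | Pk r s X} = (fun X i => X (s.orderEmbOfFin hs i)) ⁻¹'
      {x : Fin k → Torus n | ∀ i j, i < j → r ^ 2 ≤ sqd (x i) (x j)} := by
    ext X
    simp only [Set.mem_ofPred_eq, Set.mem_preimage]
    constructor
    · intro h i j hij
      exact h _ (s.orderEmbOfFin_mem hs i) _ (s.orderEmbOfFin_mem hs j)
        fun he => hij.ne (hf he)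
    · intro h i hi j hj hij
      have hr := s.range_orderEmbOfFin hs
      obtain ⟨a, rfl⟩ : i ∈ Set.range (s.orderEmbOfFin hs) := by rw [hr]; exact hi
      obtain ⟨b, rfl⟩ : j ∈ Set.range (s.orderEmbOfFin hs) := by rw [hr]; exact hj
      have hab : a ≠ b := fun h => hij (by rw [h])
      rcases lt_or_gt_of_ne hab with h2 | h2
      · exact h a b h2
      · rw [Pool.Agent.N342.HG.sqd_comm]
        exact h b a h2
  have h2 : Measurable (fun (X : Fin N → Torus n) (i : Fin k) => X (s.orderEmbOfFin hs i)) :=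
    measurable_pi_lambda _ fun i => measurable_pi_apply _
  rw [h1, ← map_measureReal_apply h2 (meas_conf k), map_inj hf]
  rfl

/-- The union bound. -/
theorem law_best_le (k : ℕ) :
    (law n N).real {X | k ≤ best r X} ≤ N.choose k * conf n r k := by
  classical
  have h1 : {X : Fin N → Torus n | k ≤ best r X} ⊆
      ⋃ s ∈ (univ : Finset (Fin N)).powersetCard k, {X | Pk r s X} := by
    intro X hX
    obtain ⟨s, hs, hp⟩ := le_best_iff.1 hX
    exact Set.mem_biUnion (Finset.mem_powersetCard.2 ⟨Finset.subset_univ s, hs⟩) hp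
  refine (measureReal_mono h1 (measure_ne_top _ _)).trans ?_
  refine (measureReal_biUnion_finset_le _ _).trans ?_
  rw [Finset.sum_congr rfl fun s hs => law_Pk s (Finset.mem_powersetCard.1 hs).2,
    Finset.sum_const, Finset.card_powersetCard, Finset.card_univ, Fintype.card_fin,
    nsmul_eq_mul]

/-- The upper bound with the partition function. -/
theorem law_best_le_Z (lam : ℝ) (hlam : 0 < lam) (k : ℕ) :
    (law n N).real {X | k ≤ best r X} ≤ (N / lam) ^ k * Zr n r lam := by
  refine (law_best_le k).trans ?_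
  have h1 : lam ^ k / k.factorial * conf n r k ≤ Zr n r lam := by
    unfold Zr
    exact (summable_Z lam hlam.le).le_tsum k fun k _ => mul_nonneg (by positivity) (conf_nonneg k)
  have h2 : (N.choose k : ℝ) ≤ N ^ k / k.factorial := Nat.choose_le_pow_div k N
  have hk : (0 : ℝ) < k.factorial := by exact_mod_cast k.factorial_pos
  calc (N.choose k : ℝ) * conf n r k ≤ N ^ k / k.factorial * conf n r k :=
        mul_le_mul_of_nonneg_right h2 (conf_nonneg k)
    _ = (N / lam) ^ k * (lam ^ k / k.factorial * conf n r k) := by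
        rw [div_pow]
        field_simp
    _ ≤ _ := mul_le_mul_of_nonneg_left h1 (by positivity)

/-- The exponent `(1 - log 2) / 2`. -/
noncomputable def y0 : ℝ := (1 - Real.log 2) / 2

theorem y0_pos : 0 < y0 := by
  unfold y0
  have := Real.log_two_lt_d9
  linarith

theorem y0_lt : y0 < 1 / 6 := by
  unfold y0
  have := Real.log_two_gt_d9
  linarith

theorem kap_mul (n : ℕ) {σ : ℝ} (h : σ ≤ y0) : kap n * Real.exp (σ * n) ≤ Real.pi * (n + 1) := by
  unfold kap
  have h1 : Real.exp (-((1 - Real.log 2) / 2) * n) * Real.exp (σ * n) ≤ 1 := by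
    rw [← Real.exp_add, Real.exp_le_one_iff]
    have h2 : (0 : ℝ) ≤ n := Nat.cast_nonneg n
    have h3 : σ ≤ (1 - Real.log 2) / 2 := h
    nlinarith
  have h4 : 0 ≤ Real.pi * ((n : ℝ) + 1) := by positivity
  calc Real.pi * (n + 1) * Real.exp (-((1 - Real.log 2) / 2) * n) * Real.exp (σ * n)
      = Real.pi * (n + 1) * (Real.exp (-((1 - Real.log 2) / 2) * n) * Real.exp (σ * n)) := by ring
    _ ≤ Real.pi * (n + 1) * 1 := mul_le_mul_of_nonneg_left h1 h4
    _ = _ := by ring

/-- The error term. -/
noncomputable def er (n : ℕ) (σ : ℝ) : ℝ :=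
  (1 + σ * n) + (1 + σ * n) ^ 2 / 2 + Real.pi * (n + 1)

/-- The partition function at the activity `exp (σ n) / v`. -/
theorem log_Z_le (hn : 1 ≤ n) (hr : 0 < r) (hr2 : r ≤ 1 / 2) {σ : ℝ} (h0 : 0 ≤ σ) (h1 : σ ≤ y0) :
    ballVol n r * Real.log (Zr n r (Real.exp (σ * n) / ballVol n r)) ≤ er n σ := by
  obtain ⟨s, hs, he⟩ := exists_W (Real.exp (σ * n)) (Real.exp_pos _)
  have h2 := pressure_le cont2 hn hr hr2 s hs
  have h3 : act n r s = Real.exp (σ * n) / ballVol n r := by
    unfold act
    rw [he]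
  rw [h3, he] at h2
  have hσ : 0 ≤ σ * n := mul_nonneg h0 (Nat.cast_nonneg n)
  have hs1 : s ≤ 1 + σ * n := by
    by_contra hcon
    push Not at hcon
    have h4 : Real.exp (σ * n) < s * Real.exp s := by
      calc Real.exp (σ * n) = 1 * Real.exp (σ * n) := (one_mul _).symm
        _ < s * Real.exp s :=
            mul_lt_mul'' (by linarith) (Real.exp_lt_exp.2 (by linarith)) zero_le_one
              (Real.exp_pos _).le
    linarith
  have h5 := kap_mul n h1
  have h6 : s ^ 2 ≤ (1 + σ * n) ^ 2 := pow_le_pow_left₀ hs.le hs1 2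
  unfold er
  linarith

/-- The upper bound for the largest packing. -/
theorem up (hn : 1 ≤ n) (hr : 0 < r) (hr2 : r ≤ 1 / 2) {x σ κ : ℝ} (h0 : 0 ≤ σ) (h1 : σ ≤ y0)
    (hx : x ≤ σ) (hN : N * ballVol n r ≤ Real.exp (x * n)) :
    (law n N).real {X | κ * n ≤ best r X * ballVol n r} ≤
      Real.exp ((er n σ - (σ - x) * κ * n ^ 2) / ballVol n r) := by
  have hD := ballVol_pos (n := n) hr
  have h2 : {X : Fin N → Torus n | κ * n ≤ best r X * ballVol n r} =
      {X | ⌈κ * n / ballVol n r⌉₊ ≤ best r X} := by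
    ext X
    simp only [Set.mem_ofPred_eq]
    rw [Nat.ceil_le, div_le_iff₀ hD]
  rw [h2]
  set k := ⌈κ * n / ballVol n r⌉₊ with hk
  have hlam : 0 < Real.exp (σ * n) / ballVol n r := by positivity
  refine (law_best_le_Z _ hlam k).trans ?_
  have h3 : (N : ℝ) / (Real.exp (σ * n) / ballVol n r) ≤ Real.exp (-((σ - x) * n)) := by
    have h3a : (N : ℝ) / (Real.exp (σ * n) / ballVol n r) =
        N * ballVol n r / Real.exp (σ * n) := by
      field_simp
    have h3b : Real.exp (-((σ - x) * n)) = Real.exp (x * n) / Real.exp (σ * n) := by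
      rw [← Real.exp_sub]
      congr 1
      ring
    rw [h3a, h3b]
    exact div_le_div_of_nonneg_right hN (Real.exp_pos _).le
  have hZ := Zr_ge_one (n := n) (r := r) Pool.Agent.N364.HG.conf_eq _ hlam.le
  have h4 : Zr n r (Real.exp (σ * n) / ballVol n r) ≤ Real.exp (er n σ / ballVol n r) := by
    rw [← Real.log_le_iff_le_exp (by linarith), le_div_iff₀ hD, mul_comm]
    exact log_Z_le hn hr hr2 h0 h1
  have h3c := pow_le_pow_left₀ (by positivity) h3 k
  rw [← Real.exp_nat_mul] at h3c
  refine (mul_le_mul h3c h4 (by linarith) (Real.exp_pos _).le).trans ?_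
  rw [← Real.exp_add, Real.exp_le_exp]
  have h5 : κ * n / ballVol n r ≤ k := Nat.le_ceil _
  have h6 : 0 ≤ (σ - x) * n := mul_nonneg (by linarith) (Nat.cast_nonneg n)
  have h7 := mul_le_mul_of_nonneg_left h5 h6
  have h8 : (er n σ - (σ - x) * κ * n ^ 2) / ballVol n r =
      er n σ / ballVol n r - (σ - x) * n * (κ * n / ballVol n r) := by
    ring
  rw [h8]
  linarith

end Pool.Agent.U279.PR
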