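import Pool.Agent.U279.PR.Pairs

/-!
# Packings inside random point sets of the torus: the lower bound
-/

set_option autoImplicit false

namespace Pool.Agent.U279.PR

open MeasureTheory Set Finset ProbabilityTheory
open scoped ENNReal NNReal
open Pool.Agent.N549.HG

variable {n N m : ℕ} {r : ℝ}

/-- Splitting a symmetric sum over the pairs. -/
theorem sum_pairs (f : Fin m × Fin m → ℝ) (hf : ∀ p, f (p.2, p.1) = f p) :
    ∑ p, f p = 2 * ∑ p ∈ prs m, f p + ∑ i, f (i, i) := by
  rw [← Finset.sum_filter_add_sum_filter_not univ (fun p : Fin m × Fin m => p.1 < p.2) f]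
  have h1 : ∑ p ∈ univ.filter (fun p : Fin m × Fin m => ¬ p.1 < p.2), f p =
      ∑ p ∈ univ.filter (fun p : Fin m × Fin m => p.2 < p.1), f p +
        ∑ p ∈ univ.filter (fun p : Fin m × Fin m => p.1 = p.2), f p := by
    rw [← Finset.sum_union]
    · congr 1
      ext p
      simp only [Finset.mem_filter, Finset.mem_univ, true_and, Finset.mem_union]
      constructor
      · intro h
        rcases lt_or_eq_of_le (not_lt.1 h) with h2 | h2
        · exact Or.inl h2
        · exact Or.inr h2.symm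
      · rintro (h | h)
        · exact not_lt.2 h.le
        · rw [h]; exact lt_irrefl _
    · rw [Finset.disjoint_filter]
      intro p _ h1 h2
      rw [h2] at h1
      exact lt_irrefl _ h1
  have h2 : ∑ p ∈ univ.filter (fun p : Fin m × Fin m => p.2 < p.1), f p =
      ∑ p ∈ prs m, f p := by
    refine Finset.sum_bij' (fun p _ => (p.2, p.1)) (fun p _ => (p.2, p.1)) ?_ ?_ ?_ ?_ ?_
    · intro p hp
      exact Finset.mem_filter.2 ⟨Finset.mem_univ _, (Finset.mem_filter.1 hp).2⟩
    · intro p hp
      exact Finset.mem_filter.2 ⟨Finset.mem_univ _, (Finset.mem_filter.1 hp).2⟩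
    · intro p _; rfl
    · intro p _; rfl
    · intro p _; exact (hf p).symm
  have h3 : ∑ p ∈ univ.filter (fun p : Fin m × Fin m => p.1 = p.2), f p = ∑ i, f (i, i) := by
    refine Finset.sum_bij' (fun p _ => p.1) (fun i _ => (i, i)) ?_ ?_ ?_ ?_ ?_
    · intro p _; exact Finset.mem_univ _
    · intro i _; exact Finset.mem_filter.2 ⟨Finset.mem_univ _, rfl⟩
    · intro p hp
      exact Prod.ext rfl (Finset.mem_filter.1 hp).2
    · intro i _; rfl
    · intro p hp
      have := (Finset.mem_filter.1 hp).2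
      congr 1
      exact Prod.ext rfl this.symm
  rw [h1, h2, h3]
  unfold prs
  ring

theorem card_prs (m : ℕ) : (m : ℝ) ^ 2 = 2 * (prs m).card + m := by
  have h := sum_pairs (m := m) (fun _ => 1) fun _ => rfl
  simp only [Finset.sum_const, Finset.card_univ, Fintype.card_prod, Fintype.card_fin,
    nsmul_eq_mul, mul_one] at h
  push_cast at h
  rw [sq]
  exact h

/-- Two of the points are close. -/
def adj (r : ℝ) (X : Fin m → Torus n) (i j : Fin m) : Prop := i ≠ j ∧ sqd (X i) (X j) < r ^ 2

theorem adj_symm (X : Fin m → Torus n) (i j : Fin m) (h : adj r X i j) : adj r X j i :=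
  ⟨h.1.symm, by rw [Pool.Agent.N342.HG.sqd_comm]; exact h.2⟩

theorem adj_irrefl (X : Fin m → Torus n) (i : Fin m) : ¬ adj r X i i := fun h => h.1 rfl

open Classical in
theorem eb_univ (X : Fin m → Torus n) :
    eb (adj r X) univ univ = 2 * ∑ p ∈ prs m, ind n m r p X := by
  have h1 : eb (adj r X) univ univ = ∑ p : Fin m × Fin m, am (adj r X) p.1 p.2 := by
    unfold eb
    rw [← Finset.univ_product_univ, Finset.sum_product]
  have h2 := sum_pairs (m := m) (fun p => am (adj r X) p.1 p.2) fun p => by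
    unfold am
    have : adj r X p.2 p.1 ↔ adj r X p.1 p.2 := ⟨adj_symm X _ _, adj_symm X _ _⟩
    simp only [this]
  have h3 : ∑ i, am (adj r X) i i = 0 := Finset.sum_eq_zero fun i _ => by
    unfold am
    rw [if_neg (adj_irrefl X i)]
  rw [h1, h2, h3, add_zero]
  congr 1
  refine Finset.sum_congr rfl fun p hp => ?_
  have hlt := (Finset.mem_filter.1 hp).2
  unfold am ind
  by_cases h : sqd (X p.1) (X p.2) < r ^ 2
  · rw [if_pos ⟨hlt.ne, h⟩, Set.indicator_of_mem (show X ∈ nrE n m r p from h)]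
    rfl
  · rw [if_neg fun h' => h h'.2, Set.indicator_of_notMem (show X ∉ nrE n m r p from h)]

open Classical in
/-- The points in close triples. -/
noncomputable def Bd (r : ℝ) (X : Fin m → Torus n) : Finset (Fin m) :=
  univ.filter fun i => ∃ j k, i ≠ j ∧ i ≠ k ∧ j ≠ k ∧ X ∈ tri n m r i j k

open Classical in
/-- The number of close triples. -/
noncomputable def nT (n m : ℕ) (r : ℝ) (X : Fin m → Torus n) : ℝ≥0∞ :=
  ∑ i : Fin m, ∑ j : Fin m, ∑ k : Fin m,
    if i ≠ j ∧ i ≠ k ∧ j ≠ k then (tri n m r i j k).indicator 1 X else 0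

theorem nT_meas : Measurable (nT n m r) := by
  unfold nT
  refine Finset.measurable_sum _ fun i _ => Finset.measurable_sum _ fun j _ =>
    Finset.measurable_sum _ fun k _ => ?_
  split_ifs
  · exact measurable_one.indicator (tri_meas i j k)
  · exact measurable_const

open Classical in
theorem Bd_le (X : Fin m → Torus n) : ((Bd r X).card : ℝ≥0∞) ≤ nT n m r X := by
  have h1 : ((Bd r X).card : ℝ≥0∞) = ∑ i : Fin m, if i ∈ Bd r X then 1 else 0 := by
    rw [Finset.sum_boole]
    simp
  rw [h1]
  unfold nT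
  refine Finset.sum_le_sum fun i _ => ?_
  by_cases hi : i ∈ Bd r X
  · rw [if_pos hi]
    obtain ⟨j, k, h⟩ := (Finset.mem_filter.1 hi).2
    calc (1 : ℝ≥0∞) = (if i ≠ j ∧ i ≠ k ∧ j ≠ k then (tri n m r i j k).indicator 1 X else 0) := by
          rw [if_pos ⟨h.1, h.2.1, h.2.2.1⟩, Set.indicator_of_mem h.2.2.2]
          rfl
      _ ≤ ∑ k : Fin m, if i ≠ j ∧ i ≠ k ∧ j ≠ k then (tri n m r i j k).indicator 1 X else 0 :=
          Finset.single_le_sum (f := fun k => if i ≠ j ∧ i ≠ k ∧ j ≠ k then
            (tri n m r i j k).indicator (1 : (Fin m → Torus n) → ℝ≥0∞) X else 0) (fun _ _ => zero_le)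
            (Finset.mem_univ k)
      _ ≤ _ := Finset.single_le_sum (f := fun j => ∑ k : Fin m, if i ≠ j ∧ i ≠ k ∧ j ≠ k then
            (tri n m r i j k).indicator (1 : (Fin m → Torus n) → ℝ≥0∞) X else 0) (fun _ _ => zero_le)
            (Finset.mem_univ j)
  · rw [if_neg hi]
    exact zero_le

theorem nT_int (hn : 1 ≤ n) (hr : 0 < r) (hr4 : r ≤ 1 / 4) :
    ∫⁻ X, nT n m r X ∂(law n m) ≤
      (m : ℝ≥0∞) * (m * (m * ENNReal.ofReal (2 * (Real.sqrt 3 / 2) ^ n * ballVol n r * ballVol n r))) := by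
  unfold nT
  set b := ENNReal.ofReal (2 * (Real.sqrt 3 / 2) ^ n * ballVol n r * ballVol n r) with hb
  have hm : ∀ i j k : Fin m, Measurable fun X : Fin m → Torus n =>
      if i ≠ j ∧ i ≠ k ∧ j ≠ k then (tri n m r i j k).indicator (1 : (Fin m → Torus n) → ℝ≥0∞) X else 0 := by
    intro i j k
    split_ifs
    · exact measurable_one.indicator (tri_meas i j k)
    · exact measurable_const
  rw [lintegral_finsetSum _ fun i _ => Finset.measurable_sum _ fun j _ =>
    Finset.measurable_sum _ fun k _ => hm i j k]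
  have h1 : ∀ i : Fin m, ∫⁻ X, ∑ j : Fin m, ∑ k : Fin m,
      (if i ≠ j ∧ i ≠ k ∧ j ≠ k then (tri n m r i j k).indicator (1 : (Fin m → Torus n) → ℝ≥0∞) X else 0)
        ∂(law n m) ≤ m * (m * b) := by
    intro i
    rw [lintegral_finsetSum _ fun j _ => Finset.measurable_sum _ fun k _ => hm i j k]
    have h2 : ∀ j : Fin m, ∫⁻ X, ∑ k : Fin m,
        (if i ≠ j ∧ i ≠ k ∧ j ≠ k then (tri n m r i j k).indicator (1 : (Fin m → Torus n) → ℝ≥0∞) X else 0)
          ∂(law n m) ≤ m * b := by
      intro j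
      rw [lintegral_finsetSum _ fun k _ => hm i j k]
      have h3 : ∀ k : Fin m, ∫⁻ X,
          (if i ≠ j ∧ i ≠ k ∧ j ≠ k then (tri n m r i j k).indicator (1 : (Fin m → Torus n) → ℝ≥0∞) X else 0)
            ∂(law n m) ≤ b := by
        intro k
        by_cases h : i ≠ j ∧ i ≠ k ∧ j ≠ k
        · simp only [if_pos h]
          rw [lintegral_indicator_one (tri_meas i j k)]
          exact tri_le hn hr hr4 h.1 h.2.1 h.2.2
        · simp only [if_neg h]
          simp
      refine (Finset.sum_le_sum fun k _ => h3 k).trans ?_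
      simp
    refine (Finset.sum_le_sum fun j _ => h2 j).trans ?_
    simp
  refine (Finset.sum_le_sum fun i _ => h1 i).trans ?_
  simp

/-- Few points are in close triples. -/
theorem Bd_prob (hn : 1 ≤ n) (hr : 0 < r) (hr4 : r ≤ 1 / 4) (hm : 1 ≤ m) {η : ℝ} (hη : 0 < η) :
    (law n m).real {X | η * m ≤ (Bd r X).card} ≤
      2 * (m * ballVol n r) ^ 2 * (Real.sqrt 3 / 2) ^ n / η := by
  have hmR : (0 : ℝ) < m := by exact_mod_cast hm
  have hv := ballVol_pos (n := n) hr
  have hc : ENNReal.ofReal (η * m) ≠ 0 := by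
    rw [Ne, ENNReal.ofReal_eq_zero, not_le]
    positivity
  have hsub : {X : Fin m → Torus n | η * m ≤ (Bd r X).card} ⊆
      {X | ENNReal.ofReal (η * m) ≤ nT n m r X} := by
    intro X hX
    simp only [Set.mem_ofPred_eq] at hX ⊢
    refine le_trans ?_ (Bd_le X)
    rw [← ENNReal.ofReal_natCast]
    exact ENNReal.ofReal_le_ofReal hX
  have h1 := (measure_mono hsub).trans
    (meas_ge_le_lintegral_div (μ := law n m) nT_meas.aemeasurable hc ENNReal.ofReal_ne_top)
  have h2 : (∫⁻ X, nT n m r X ∂(law n m)) / ENNReal.ofReal (η * m) ≤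
      ENNReal.ofReal (2 * (m * ballVol n r) ^ 2 * (Real.sqrt 3 / 2) ^ n / η) := by
    refine (ENNReal.div_le_div_right (nT_int hn hr hr4) _).trans ?_
    rw [← ENNReal.ofReal_natCast, ← ENNReal.ofReal_mul (by positivity),
      ← ENNReal.ofReal_mul (by positivity), ← ENNReal.ofReal_mul (by positivity),
      ← ENNReal.ofReal_div_of_pos (by positivity)]
    refine ENNReal.ofReal_le_ofReal (le_of_eq ?_)
    field_simp
  have h3 := ENNReal.toReal_mono ENNReal.ofReal_ne_top (h1.trans h2)
  rwa [ENNReal.toReal_ofReal (by positivity)] at h3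

/-- Points with few close pairs and few points in close triples contain a large packing. -/
theorem best_ge (hr : 0 < r) (hm : 1 ≤ m) {η : ℝ} (h0 : 0 < η) (h1 : η < 1)
    (hL : 1 ≤ Real.log (m * ballVol n r)) (X : Fin m → Torus n)
    (hB : ((Bd r X).card : ℝ) ≤ η * m)
    (hE : ∑ p ∈ prs m, ind n m r p X ≤ (1 + η) * ((prs m).card * ballVol n r)) :
    (1 - η) ^ 2 / (1 + η) * (Real.log (m * ballVol n r) - 1) ≤ best r X * ballVol n r := by
  classical
  have hmR : (0 : ℝ) < m := by exact_mod_cast hm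
  have hv := ballVol_pos (n := n) hr
  set L := m * ballVol n r with hLdef
  have hL0 : 0 < L := by positivity
  set S : Finset (Fin m) := univ \ Bd r X with hS
  have hScard : (1 - η) * m ≤ S.card := by
    have h2 : (S.card : ℝ) = m - (Bd r X).card := by
      rw [hS, Finset.card_sdiff_of_subset (Finset.subset_univ _), Finset.card_univ,
        Fintype.card_fin, Nat.cast_sub]
      simpa using (Bd r X).card_le_univ
    rw [h2]
    linarith
  have hSpos : (0 : ℝ) < S.card := lt_of_lt_of_le (by nlinarith) hScard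
  obtain ⟨I, hIS, hI, hIc⟩ := shearer (adj r X) (adj_symm X) (adj_irrefl X) _ S rfl (by
    intro a ha b hb c hc hab hbc hac
    rw [hS, Finset.mem_sdiff] at ha
    apply ha.2
    refine Finset.mem_filter.2 ⟨Finset.mem_univ _, b, c, hab.1, hac.1, hbc.1, ?_⟩
    exact ⟨hab.2, hac.2, hbc.2⟩)
  have hIbest : I.card ≤ best r X := le_best fun i hi j hj hij => by
    by_contra h
    push Not at h
    exact hI i hi j hj ⟨hij, h⟩
  have heb : eb (adj r X) S S ≤ (1 + η) * m * L := by
    refine (eb_mono (adj r X) (Finset.subset_univ S)).trans ?_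
    rw [eb_univ X]
    have h2 := card_prs m
    have h3 : 2 * ((1 + η) * ((prs m).card * ballVol n r)) ≤ (1 + η) * m * L := by
      have h4 : 2 * ((prs m).card : ℝ) ≤ m ^ 2 := by linarith
      have h5 := mul_le_mul_of_nonneg_right h4 (show 0 ≤ (1 + η) * ballVol n r by positivity)
      rw [hLdef]
      nlinarith
    linarith
  set d := (1 + η) / (1 - η) * L with hd
  have h1' : 0 < 1 - η := by linarith
  have hd0 : 0 < d := by positivity
  have hdL : L ≤ d := by
    rw [hd]
    have : 1 ≤ (1 + η) / (1 - η) := by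
      rw [le_div_iff₀ h1']
      linarith
    nlinarith
  have hdle : eb (adj r X) S S / S.card ≤ d := by
    rw [div_le_iff₀ hSpos]
    refine heb.trans ?_
    calc (1 + η) * m * L = d * ((1 - η) * m) := by
          rw [hd]
          field_simp
      _ ≤ d * S.card := mul_le_mul_of_nonneg_left hScard hd0.le
  have hsf : (Real.log L - 1) / d ≤ sf (eb (adj r X) S S / S.card) := by
    refine le_trans ?_ (sf_anti (div_nonneg (eb_nonneg _ _ _) hSpos.le) hdle)
    refine le_trans ?_ (sf_ge hd0)
    refine div_le_div_of_nonneg_right ?_ hd0.le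
    have : Real.log L ≤ Real.log (1 + d) := Real.log_le_log hL0 (by linarith)
    linarith
  have h2 : (1 - η) * m * ((Real.log L - 1) / d) ≤ best r X := by
    have h3 : 0 ≤ (Real.log L - 1) / d := div_nonneg (by linarith) hd0.le
    calc (1 - η) * m * ((Real.log L - 1) / d) ≤ S.card * ((Real.log L - 1) / d) :=
          mul_le_mul_of_nonneg_right hScard h3
      _ ≤ S.card * sf (eb (adj r X) S S / S.card) := mul_le_mul_of_nonneg_left hsf hSpos.le
      _ ≤ I.card := hIc
      _ ≤ best r X := by exact_mod_cast hIbest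
  have h3 := mul_le_mul_of_nonneg_right h2 hv.le
  refine le_trans (le_of_eq ?_) h3
  rw [hd, hLdef]
  field_simp

/-- **The lower bound for `m` points.** -/
theorem low_m (hn : 1 ≤ n) (hr : 0 < r) (hr4 : r ≤ 1 / 4) (hm : 2 ≤ m) {η : ℝ} (h0 : 0 < η)
    (h1 : η < 1) (hL : 1 ≤ Real.log (m * ballVol n r)) :
    (law n m).real {X | best r X * ballVol n r <
      (1 - η) ^ 2 / (1 + η) * (Real.log (m * ballVol n r) - 1)} ≤
      4 * ballVol n r / (η ^ 2 * (m * ballVol n r) ^ 2) +
        2 * (m * ballVol n r) ^ 2 * (Real.sqrt 3 / 2) ^ n / η := by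
  have hmR : (2 : ℝ) ≤ m := by exact_mod_cast hm
  have hv := ballVol_pos (n := n) hr
  have hC := card_prs m
  have hC1 : (m : ℝ) ^ 2 / 4 ≤ (prs m).card := by nlinarith
  have hC0 : 0 < (prs m).card := by
    have : (0 : ℝ) < (prs m).card := lt_of_lt_of_le (by positivity) hC1
    exact_mod_cast this
  have hsub : {X : Fin m → Torus n | best r X * ballVol n r <
      (1 - η) ^ 2 / (1 + η) * (Real.log (m * ballVol n r) - 1)} ⊆
      {X | (1 + η) * ((prs m).card * ballVol n r) ≤ ∑ p ∈ prs m, ind n m r p X} ∪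
        {X | η * m ≤ (Bd r X).card} := by
    intro X hX
    by_contra hcon
    simp only [Set.mem_union, Set.mem_ofPred_eq, not_or, not_le] at hcon hX
    exact absurd (best_ge hr (by omega) h0 h1 hL X hcon.2.le hcon.1.le) (not_le.2 hX)
  refine (measureReal_mono hsub (measure_ne_top _ _)).trans ?_
  refine (measureReal_union_le _ _).trans ?_
  refine add_le_add ?_ (Bd_prob hn hr hr4 (by omega) h0)
  refine (edges_le hr (by linarith) h0 hC0).trans ?_
  have h2 : (m : ℝ) ^ 2 / 4 * ballVol n r ≤ (prs m).card * ballVol n r :=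
    mul_le_mul_of_nonneg_right hC1 hv.le
  have h3 : 4 * ballVol n r / (η ^ 2 * (m * ballVol n r) ^ 2) =
      1 / (η ^ 2 * ((m : ℝ) ^ 2 / 4 * ballVol n r)) := by
    field_simp
  rw [h3]
  exact one_div_le_one_div_of_le (by positivity) (mul_le_mul_of_nonneg_left h2 (by positivity))

end Pool.Agent.U279.PR
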