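import Pool.Agent.U279.PR.Low

/-!
# Packings inside random point sets of the torus: the lower bound, asymptotics
-/

set_option autoImplicit false

namespace Pool.Agent.U279.PR

open MeasureTheory Set Finset ProbabilityTheory Filter Topology
open scoped ENNReal NNReal
open Pool.Agent.N549.HG

variable {n N m : ℕ} {r : ℝ}

/-- More points contain larger packings. -/
theorem best_mono (h : m ≤ N) (X : Fin N → Torus n) :
    best r (fun i => X (Fin.castLE h i)) ≤ best r X := by
  classical
  obtain ⟨s, hs, hc⟩ := exists_best r (fun i => X (Fin.castLE h i))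
  have hinj : Function.Injective (Fin.castLE h) := Fin.castLE_injective h
  rw [← hc, ← Finset.card_image_of_injective s hinj]
  refine le_best ?_
  intro i hi j hj hij
  obtain ⟨a, ha, rfl⟩ := Finset.mem_image.1 hi
  obtain ⟨b, hb, rfl⟩ := Finset.mem_image.1 hj
  exact hs a ha b hb fun h => hij (by rw [h])

theorem law_mono (h : m ≤ N) (c : ℝ) :
    (law n N).real {X | best r X * ballVol n r < c} ≤
      (law n m).real {X | best r X * ballVol n r < c} := by
  have hm : Measurable fun (X : Fin N → Torus n) (i : Fin m) => X (Fin.castLE h i) :=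
    measurable_pi_lambda _ fun i => measurable_pi_apply _
  have h1 := Measure.le_map_apply (μ := law n N) hm.aemeasurable
    {X : Fin m → Torus n | best r X * ballVol n r < c}
  rw [map_inj (Fin.castLE_injective h)] at h1
  have h2 : {X : Fin N → Torus n | best r X * ballVol n r < c} ⊆
      (fun (X : Fin N → Torus n) (i : Fin m) => X (Fin.castLE h i)) ⁻¹'
        {X : Fin m → Torus n | best r X * ballVol n r < c} := by
    intro X hX
    simp only [Set.mem_ofPred_eq, Set.mem_preimage] at hX ⊢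
    have h3 : (best r (fun i => X (Fin.castLE h i)) : ℝ) ≤ best r X := by
      exact_mod_cast best_mono h X
    have h4 : 0 ≤ ballVol n r := ENNReal.toReal_nonneg
    exact (mul_le_mul_of_nonneg_right h3 h4).trans_lt hX
  exact ENNReal.toReal_mono (measure_ne_top _ _) ((measure_mono h2).trans h1)

/-- The limit of the exponents for the lower bound. -/
noncomputable def xs : ℝ := Real.log (2 / Real.sqrt 3) / 2

theorem xs_exp (n : ℕ) : (Real.sqrt 3 / 2) ^ n = Real.exp (-(2 * xs * n)) := by
  have h3 : 0 < Real.sqrt 3 := by positivity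
  have h1 : Real.sqrt 3 / 2 = Real.exp (-(2 * xs)) := by
    unfold xs
    rw [mul_div_cancel₀ _ (two_ne_zero), ← Real.log_inv, inv_div, Real.exp_log (by positivity)]
  rw [h1, ← Real.exp_nat_mul]
  congr 1
  ring

theorem xs_lt : xs < 1 / 12 := by
  unfold xs
  have h3 : 0 < Real.sqrt 3 := by positivity
  have h1 : Real.log (2 / Real.sqrt 3) ≤ 2 / Real.sqrt 3 - 1 := Real.log_le_sub_one_of_pos (by positivity)
  have h2 : 2 / Real.sqrt 3 < 7 / 6 := by
    rw [div_lt_div_iff₀ h3 (by norm_num)]
    have : (12 / 7 : ℝ) < Real.sqrt 3 := by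
      rw [Real.lt_sqrt (by norm_num)]
      norm_num
    linarith
  linarith

theorem xs_pos : 0 < xs := by
  unfold xs
  have h3 : Real.sqrt 3 < 2 := by
    rw [Real.sqrt_lt' (by norm_num)]
    norm_num
  have h4 : 0 < Real.sqrt 3 := by positivity
  have : 0 < Real.log (2 / Real.sqrt 3) := Real.log_pos (by
    rw [lt_div_iff₀ h4]
    linarith)
  linarith

/-- **The lower bound, asymptotically.** -/
theorem low_ev {ε : ℝ} (hε : 0 < ε) : ∃ n₀ : ℕ, ∀ n : ℕ, n₀ ≤ n → ∀ r : ℝ, 0 < r → r ≤ 1 / 4 →
    ∀ (x : ℝ) (N : ℕ), Real.exp (x * n) ≤ N * ballVol n r →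
    (law n N).real {X | best r X * ballVol n r < (min x xs - ε) * n} ≤ ε := by
  by_cases hε1 : xs ≤ ε
  · refine ⟨0, fun n _ r hr _ x N _ => ?_⟩
    have : {X : Fin N → Torus n | best r X * ballVol n r < (min x xs - ε) * n} = ∅ := by
      ext X
      simp only [Set.mem_ofPred_eq, Set.mem_empty_iff_false, iff_false, not_lt]
      have h1 : (min x xs - ε) * n ≤ 0 :=
        mul_nonpos_of_nonpos_of_nonneg (by linarith [min_le_right x xs]) (Nat.cast_nonneg n)
      have h2 : 0 ≤ best r X * ballVol n r :=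
        mul_nonneg (Nat.cast_nonneg _) ENNReal.toReal_nonneg
      linarith
    rw [this]
    simpa using hε.le
  push Not at hε1
  have hx1 := xs_lt
  set η : ℝ := ε / 3 with hη
  have hη0 : 0 < η := by positivity
  have hη1 : η < 1 := by linarith
  have e1 : ∀ᶠ n : ℕ in atTop, 4 * (1 / 2 : ℝ) ^ n / η ^ 2 ≤ ε / 2 := by
    have h1 : Tendsto (fun n : ℕ => 4 * (1 / 2 : ℝ) ^ n / η ^ 2) atTop (𝓝 (4 * 0 / η ^ 2)) :=
      ((tendsto_pow_atTop_nhds_zero_of_lt_one (by norm_num) (by norm_num)).const_mul 4).div_const _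
    rw [mul_zero, zero_div] at h1
    exact h1.eventually_le_const (by positivity)
  have e2 : ∀ᶠ n : ℕ in atTop, 8 * Real.exp (-(ε * n)) / η ≤ ε / 2 := by
    have h0 : Tendsto (fun n : ℕ => ε * (n : ℝ)) atTop atTop :=
      tendsto_natCast_atTop_atTop.const_mul_atTop hε
    have h1 : Tendsto (fun n : ℕ => 8 * Real.exp (-(ε * n)) / η) atTop (𝓝 (8 * 0 / η)) :=
      ((Real.tendsto_exp_neg_atTop_nhds_zero.comp h0).const_mul 8).div_const _
    rw [mul_zero, zero_div] at h1
    exact h1.eventually_le_const (by positivity)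
  have e3 : ∀ᶠ n : ℕ in atTop, 3 / ε ≤ (n : ℝ) := tendsto_natCast_atTop_atTop.eventually_ge_atTop _
  obtain ⟨n₀, hn₀⟩ := eventually_atTop.1 ((e1.and e2).and (e3.and (eventually_ge_atTop 1)))
  refine ⟨n₀, fun n hn r hr hr4 x N hN => ?_⟩
  obtain ⟨⟨f1, f2⟩, f3, f4⟩ := hn₀ n hn
  have hnR : (1 : ℝ) ≤ n := by exact_mod_cast f4
  rw [div_le_iff₀ hε] at f3
  have hv := ballVol_pos (n := n) hr
  have hv2 := ballVol_le f4 hr hr4
  set w := min x xs with hw
  have hwx : w ≤ x := min_le_left _ _
  have hws : w ≤ xs := min_le_right _ _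
  by_cases hwε : w ≤ ε
  · have : {X : Fin N → Torus n | best r X * ballVol n r < (w - ε) * n} = ∅ := by
      ext X
      simp only [Set.mem_ofPred_eq, Set.mem_empty_iff_false, iff_false, not_lt]
      have h1 : (w - ε) * n ≤ 0 :=
        mul_nonpos_of_nonpos_of_nonneg (by linarith) (Nat.cast_nonneg n)
      have h2 : 0 ≤ best r X * ballVol n r :=
        mul_nonneg (Nat.cast_nonneg _) ENNReal.toReal_nonneg
      linarith
    rw [this]
    simpa using hε.le
  push Not at hwε
  set L1 := Real.exp ((w - ε / 2) * n) with hL1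
  have hL1ge : 1 ≤ L1 := by
    rw [hL1]
    exact Real.one_le_exp (mul_nonneg (by linarith) (by linarith))
  have hv1 : ballVol n r ≤ 1 / 2 := hv2.trans (by
    calc (1 / 2 : ℝ) ^ n ≤ (1 / 2) ^ 1 := pow_le_pow_of_le_one (by norm_num) (by norm_num) f4
      _ = 1 / 2 := by norm_num)
  set m := ⌈L1 / ballVol n r⌉₊ with hm
  have hm1 : L1 ≤ m * ballVol n r := by
    have := Nat.le_ceil (L1 / ballVol n r)
    rwa [div_le_iff₀ hv] at this
  have hm2 : m * ballVol n r < L1 + ballVol n r := by
    have := Nat.ceil_lt_add_one (a := L1 / ballVol n r) (by positivity)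
    have h2 := mul_lt_mul_of_pos_right this hv
    rw [add_mul, div_mul_cancel₀ _ hv.ne', one_mul] at h2
    exact h2
  have hm3 : m * ballVol n r ≤ 2 * L1 := by linarith
  have hmN : m ≤ N := by
    have h1 : L1 * Real.exp (ε / 2 * n) ≤ N * ballVol n r := by
      refine le_trans ?_ hN
      rw [hL1, ← Real.exp_add, Real.exp_le_exp]
      nlinarith
    have h2 : 2 ≤ Real.exp (ε / 2 * n) := by
      have := Real.add_one_le_exp (ε / 2 * (n : ℝ))
      linarith
    have h3 : (m : ℝ) * ballVol n r < N * ballVol n r := by nlinarith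
    have h4 := lt_of_mul_lt_mul_right h3 hv.le
    exact_mod_cast h4.le
  have hm2' : 2 ≤ m := by
    have h1 : (2 : ℝ) * ballVol n r ≤ m * ballVol n r := by linarith
    have h2 := le_of_mul_le_mul_right h1 hv
    exact_mod_cast h2
  have hlog : (w - ε / 2) * n ≤ Real.log (m * ballVol n r) := by
    rw [Real.le_log_iff_exp_le (by positivity)]
    exact hm1
  have hlog1 : 1 ≤ Real.log (m * ballVol n r) := by
    refine le_trans ?_ hlog
    nlinarith
  refine (law_mono hmN _).trans ?_
  have h1 : {X : Fin m → Torus n | best r X * ballVol n r < (w - ε) * n} ⊆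
      {X | best r X * ballVol n r <
        (1 - η) ^ 2 / (1 + η) * (Real.log (m * ballVol n r) - 1)} := by
    intro X hX
    simp only [Set.mem_ofPred_eq] at hX ⊢
    refine hX.trans_le ?_
    have h2 : 1 - 3 * η ≤ (1 - η) ^ 2 / (1 + η) := by
      rw [le_div_iff₀ (by linarith)]
      nlinarith
    have h3 : 0 ≤ Real.log (m * ballVol n r) - 1 := by linarith
    refine le_trans ?_ (mul_le_mul_of_nonneg_right h2 h3)
    have h4 : 1 - 3 * η = 1 - ε := by rw [hη]; ring
    rw [h4]
    have h5 : (1 - ε) * ((w - ε / 2) * n - 1) ≤ (1 - ε) * (Real.log (m * ballVol n r) - 1) :=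
      mul_le_mul_of_nonneg_left (by linarith) (by linarith)
    refine le_trans ?_ h5
    have h6 : w * ε ≤ 1 / 12 * ε := mul_le_mul_of_nonneg_right (by linarith) hε.le
    nlinarith [mul_le_mul_of_nonneg_right h6 (by linarith : (0 : ℝ) ≤ n), mul_pos hε hε]
  refine (measureReal_mono h1 (measure_ne_top _ _)).trans ?_
  refine (low_m f4 hr hr4 hm2' hη0 hη1 hlog1).trans ?_
  have g1 : 4 * ballVol n r / (η ^ 2 * (m * ballVol n r) ^ 2) ≤ ε / 2 := by
    refine le_trans ?_ f1
    rw [div_le_div_iff₀ (by positivity) (by positivity)]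
    have h2 : 1 ≤ (m * ballVol n r) ^ 2 := one_le_pow₀ (by linarith)
    have h3 : ballVol n r ≤ (1 / 2) ^ n * (m * ballVol n r) ^ 2 := by
      have : (0 : ℝ) < (1 / 2) ^ n := by positivity
      nlinarith
    have h4 := mul_le_mul_of_nonneg_right h3 (show 0 ≤ 4 * η ^ 2 by positivity)
    linarith
  have g2 : 2 * (m * ballVol n r) ^ 2 * (Real.sqrt 3 / 2) ^ n / η ≤ ε / 2 := by
    refine le_trans ?_ f2
    refine div_le_div_of_nonneg_right ?_ hη0.le
    rw [xs_exp]
    have h2 : (m * ballVol n r) ^ 2 ≤ 4 * Real.exp ((2 * w - ε) * n) := by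
      have h3 : (m * ballVol n r) ^ 2 ≤ (2 * L1) ^ 2 := pow_le_pow_left₀ (by positivity) hm3 2
      refine h3.trans (le_of_eq ?_)
      rw [mul_pow, hL1, ← Real.exp_nat_mul]
      norm_num
      ring_nf
    calc 2 * (m * ballVol n r) ^ 2 * Real.exp (-(2 * xs * n))
        ≤ 2 * (4 * Real.exp ((2 * w - ε) * n)) * Real.exp (-(2 * xs * n)) := by
          refine mul_le_mul_of_nonneg_right ?_ (Real.exp_pos _).le
          linarith
      _ = 8 * Real.exp ((2 * w - ε) * n + -(2 * xs * n)) := by
          rw [Real.exp_add]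
          ring
      _ ≤ 8 * Real.exp (-(ε * n)) := by
          refine mul_le_mul_of_nonneg_left (Real.exp_le_exp.2 ?_) (by norm_num)
          nlinarith
  linarith

end Pool.Agent.U279.PR
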