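import Mathlib

/-!
# Independent sets of triangle-free graphs (the bound of Shearer)
-/

set_option autoImplicit false

namespace Pool.Agent.U279.PR

open Finset MeasureTheory intervalIntegral

/-- Shearer's function. -/
noncomputable def sf (d : ℝ) : ℝ := ∫ t in (0 : ℝ)..1, (1 - t) / (1 - t + t * d)

/-- Minus the derivative of Shearer's function. -/
noncomputable def sg (d : ℝ) : ℝ := ∫ t in (0 : ℝ)..1, t * (1 - t) / (1 - t + t * d) ^ 2

theorem u_pos {d t : ℝ} (hd : 0 < d) (h0 : 0 ≤ t) (h1 : t ≤ 1) : 0 < 1 - t + t * d := by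
  rcases h1.lt_or_eq with h | h
  · have := mul_nonneg h0 hd.le
    linarith
  · rw [h]; linarith

theorem cont_f {d : ℝ} (hd : 0 < d) :
    ContinuousOn (fun t : ℝ => (1 - t) / (1 - t + t * d)) (Set.uIcc 0 1) := by
  rw [Set.uIcc_of_le zero_le_one]
  refine ContinuousOn.div (by fun_prop) (by fun_prop) fun t ht => (u_pos hd ht.1 ht.2).ne'

theorem cont_g {d : ℝ} (hd : 0 < d) :
    ContinuousOn (fun t : ℝ => t * (1 - t) / (1 - t + t * d) ^ 2) (Set.uIcc 0 1) := by
  rw [Set.uIcc_of_le zero_le_one]
  refine ContinuousOn.div (by fun_prop) (by fun_prop) fun t ht => ?_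
  exact pow_ne_zero 2 (u_pos hd ht.1 ht.2).ne'

theorem sf_zero : sf 0 = 1 := by
  unfold sf
  have h : ∫ t in (0 : ℝ)..1, (1 - t) / (1 - t + t * 0) = ∫ t in (0 : ℝ)..1, (1 : ℝ) := by
    refine integral_congr_ae ?_
    have h1 : ∀ᵐ t : ℝ, t ≠ 1 := by
      rw [ae_iff]
      simp
    filter_upwards [h1] with t ht _
    have : 1 - t ≠ 0 := sub_ne_zero.2 (Ne.symm ht)
    rw [mul_zero, add_zero, div_self this]
  rw [h]
  simp

theorem int_f {d : ℝ} (hd : 0 ≤ d) :
    IntervalIntegrable (fun t : ℝ => (1 - t) / (1 - t + t * d)) volume 0 1 := by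
  rcases hd.lt_or_eq with h | h
  · exact (cont_f h).intervalIntegrable
  · subst h
    have h1 : IntervalIntegrable (fun _ : ℝ => (1 : ℝ)) volume 0 1 := intervalIntegrable_const
    refine h1.congr_ae ?_
    have h2 : ∀ᵐ t : ℝ, t ≠ 1 := by
      rw [ae_iff]
      simp
    have h3 := ae_restrict_of_ae (s := Set.uIoc (0 : ℝ) 1) h2
    filter_upwards [h3] with t ht
    have : 1 - t ≠ 0 := sub_ne_zero.2 (Ne.symm ht)
    rw [mul_zero, add_zero, div_self this]

theorem sf_nonneg {d : ℝ} (hd : 0 ≤ d) : 0 ≤ sf d := by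
  unfold sf
  refine integral_nonneg zero_le_one fun t ht => ?_
  have h1 : 0 ≤ 1 - t := by linarith [ht.2]
  have h2 : 0 ≤ t * d := mul_nonneg ht.1 hd
  exact div_nonneg h1 (by linarith)

theorem sg_nonneg {d : ℝ} : 0 ≤ sg d := by
  unfold sg
  refine integral_nonneg zero_le_one fun t ht => ?_
  have h1 : 0 ≤ 1 - t := by linarith [ht.2]
  exact div_nonneg (mul_nonneg ht.1 h1) (sq_nonneg _)

theorem sf_anti {d e : ℝ} (hd : 0 ≤ d) (h : d ≤ e) : sf e ≤ sf d := by
  unfold sf
  refine integral_mono_on_of_le_Ioo zero_le_one (int_f (hd.trans h)) (int_f hd) fun t ht => ?_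
  have h1 : 0 < 1 - t := by linarith [ht.2]
  have h2 : 0 ≤ t * d := mul_nonneg ht.1.le hd
  have h3 : t * d ≤ t * e := mul_le_mul_of_nonneg_left h ht.1.le
  exact div_le_div_of_nonneg_left h1.le (by linarith) (by linarith)

/-- The tangent. -/
theorem sf_tangent {d e : ℝ} (hd : 0 < d) (he : 0 ≤ e) : sf d - (e - d) * sg d ≤ sf e := by
  unfold sf sg
  rw [← intervalIntegral.integral_const_mul,
    ← intervalIntegral.integral_sub (int_f hd.le) ((cont_g hd).intervalIntegrable.const_mul _)]
  refine integral_mono_on_of_le_Ioo zero_le_one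
    ((int_f hd.le).sub ((cont_g hd).intervalIntegrable.const_mul _)) (int_f he) fun t ht => ?_
  have h1 : 0 < 1 - t := by linarith [ht.2]
  have hu : 0 < 1 - t + t * d := u_pos hd ht.1.le ht.2.le
  have hu' : 0 < 1 - t + t * e := by
    have := mul_nonneg ht.1.le he
    linarith
  set u := 1 - t + t * d with hudef
  set u' := 1 - t + t * e with hudef'
  have h2 : t * (e - d) = u' - u := by rw [hudef, hudef']; ring
  have h3 : (e - d) * (t * (1 - t) / u ^ 2) = (1 - t) * ((u' - u) / u ^ 2) := by
    rw [← h2]; ring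
  rw [h3]
  have h4 : (1 - t) / u' - ((1 - t) / u - (1 - t) * ((u' - u) / u ^ 2)) =
      (1 - t) * ((u' - u) ^ 2 / (u ^ 2 * u')) := by
    field_simp
    ring
  have h5 : 0 ≤ (1 - t) * ((u' - u) ^ 2 / (u ^ 2 * u')) := by positivity
  linarith

/-- The differential equation. -/
theorem sf_ode {d : ℝ} (hd : 0 < d) : (1 + d) * sf d + (d - d ^ 2) * sg d = 1 := by
  unfold sf sg
  rw [← intervalIntegral.integral_const_mul, ← intervalIntegral.integral_const_mul,
    ← intervalIntegral.integral_add ((int_f hd.le).const_mul _)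
      ((cont_g hd).intervalIntegrable.const_mul _)]
  have h1 : ∀ t ∈ Set.uIcc (0 : ℝ) 1, HasDerivAt (fun t : ℝ => -((1 - t) ^ 2 / (1 - t + t * d)))
      ((1 + d) * ((1 - t) / (1 - t + t * d)) +
        (d - d ^ 2) * (t * (1 - t) / (1 - t + t * d) ^ 2)) t := by
    intro t ht
    rw [Set.uIcc_of_le zero_le_one] at ht
    have hu := u_pos hd ht.1 ht.2
    have a1 : HasDerivAt (fun t : ℝ => 1 - t) (-1) t := (hasDerivAt_id' t).const_sub 1
    have e1 : HasDerivAt (fun t : ℝ => (1 - t) ^ 2) (2 * (1 - t) * (-1)) t := by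
      have := a1.fun_pow 2
      simpa using this
    have e2 : HasDerivAt (fun t : ℝ => 1 - t + t * d) (-1 + d) t := by
      have := a1.fun_add ((hasDerivAt_id' t).mul_const d)
      simpa using this
    have e3 := (e1.fun_div e2 hu.ne').fun_neg
    refine e3.congr_deriv ?_
    field_simp
    ring
  rw [integral_eq_sub_of_hasDerivAt h1]
  · norm_num
  · exact ((int_f hd.le).const_mul _).add ((cont_g hd).intervalIntegrable.const_mul _)

/-- The growth of Shearer's function. -/
theorem sf_ge {d : ℝ} (hd : 0 < d) : (Real.log (1 + d) - 1) / d ≤ sf d := by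
  have hc : ContinuousOn (fun t : ℝ => (1 - t) / (1 + t * d)) (Set.uIcc 0 1) := by
    rw [Set.uIcc_of_le zero_le_one]
    refine ContinuousOn.div (by fun_prop) (by fun_prop) fun t ht => ?_
    have := mul_nonneg ht.1 hd.le
    positivity
  have h1 : ∀ t ∈ Set.uIcc (0 : ℝ) 1,
      HasDerivAt (fun t : ℝ => (1 + 1 / d) * (Real.log (1 + t * d) / d) - t / d)
        ((1 - t) / (1 + t * d)) t := by
    intro t ht
    rw [Set.uIcc_of_le zero_le_one] at ht
    have hu : 0 < 1 + t * d := by
      have := mul_nonneg ht.1 hd.le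
      positivity
    have e2 : HasDerivAt (fun t : ℝ => 1 + t * d) d t := by
      have := ((hasDerivAt_id' t).mul_const d).const_add 1
      simpa using this
    have e3 := (((e2.log hu.ne').div_const d).const_mul (1 + 1 / d)).fun_sub
      ((hasDerivAt_id' t).div_const d)
    refine e3.congr_deriv ?_
    have hne := hu.ne'
    rw [eq_div_iff hne]
    have e4 : d / (1 + t * d) / d * (1 + t * d) = 1 := by
      rw [div_div, div_mul_eq_mul_div, mul_comm (1 + t * d) d]
      exact div_self (mul_ne_zero hd.ne' hne)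
    calc ((1 + 1 / d) * (d / (1 + t * d) / d) - 1 / d) * (1 + t * d)
        = (1 + 1 / d) * (d / (1 + t * d) / d * (1 + t * d)) - 1 / d * (1 + t * d) := by ring
      _ = 1 - t := by
          rw [e4]
          field_simp
          ring
  have h2 : ∫ t in (0 : ℝ)..1, (1 - t) / (1 + t * d) =
      (1 + 1 / d) * (Real.log (1 + d) / d) - 1 / d := by
    rw [integral_eq_sub_of_hasDerivAt h1 hc.intervalIntegrable]
    simp
  have h3 : ∫ t in (0 : ℝ)..1, (1 - t) / (1 + t * d) ≤ sf d := by
    unfold sf
    refine integral_mono_on_of_le_Ioo zero_le_one hc.intervalIntegrable (int_f hd.le)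
      fun t ht => ?_
    have h1 : 0 < 1 - t := by linarith [ht.2]
    exact div_le_div_of_nonneg_left h1.le (u_pos hd ht.1.le ht.2.le) (by linarith [ht.1])
  refine le_trans ?_ h3
  rw [h2]
  have h4 : 0 ≤ 1 / d * (Real.log (1 + d) / d) := by
    have := Real.log_nonneg (by linarith : (1 : ℝ) ≤ 1 + d)
    positivity
  have h5 : (1 + 1 / d) * (Real.log (1 + d) / d) - 1 / d =
      (Real.log (1 + d) - 1) / d + 1 / d * (Real.log (1 + d) / d) := by ring
  rw [h5]
  linarith

/-! ### Shearer's theorem -/

section graph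

variable {V : Type*} (adj : V → V → Prop) [DecidableRel adj]

/-- The adjacency matrix. -/
def am (x y : V) : ℝ := if adj x y then 1 else 0

/-- The number of ordered adjacent pairs. -/
def eb (P Q : Finset V) : ℝ := ∑ x ∈ P, ∑ y ∈ Q, am adj x y

theorem eb_nonneg (P Q : Finset V) : 0 ≤ eb adj P Q :=
  sum_nonneg fun x _ => sum_nonneg fun y _ => by unfold am; split_ifs <;> norm_num

theorem eb_comm (hs : ∀ a b, adj a b → adj b a) (P Q : Finset V) : eb adj P Q = eb adj Q P := by
  unfold eb
  rw [sum_comm]
  refine sum_congr rfl fun x _ => sum_congr rfl fun y _ => ?_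
  unfold am
  have : adj y x ↔ adj x y := ⟨hs _ _, hs _ _⟩
  simp only [this]

theorem eb_union_left [DecidableEq V] {P P' : Finset V} (h : Disjoint P P') (Q : Finset V) :
    eb adj (P ∪ P') Q = eb adj P Q + eb adj P' Q := by
  unfold eb
  rw [sum_union h]

theorem eb_union_right [DecidableEq V] (P : Finset V) {Q Q' : Finset V} (h : Disjoint Q Q') :
    eb adj P (Q ∪ Q') = eb adj P Q + eb adj P Q' := by
  unfold eb
  rw [← sum_add_distrib]
  exact sum_congr rfl fun x _ => sum_union h

theorem eb_mono {P P' : Finset V} (h : P ⊆ P') : eb adj P P ≤ eb adj P' P' := by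
  unfold eb
  have h0 : ∀ x y, 0 ≤ am adj x y := fun x y => by unfold am; split_ifs <;> norm_num
  refine (sum_le_sum fun x _ => sum_le_sum_of_subset_of_nonneg h fun y _ _ => h0 x y).trans ?_
  exact sum_le_sum_of_subset_of_nonneg h fun x _ _ => sum_nonneg fun y _ => h0 x y

/-- Removing a vertex with its neighbours. -/
theorem step [DecidableEq V] (hs : ∀ a b, adj a b → adj b a) (hi : ∀ a, ¬ adj a a) (S : Finset V)
    (htf : ∀ a ∈ S, ∀ b ∈ S, ∀ c ∈ S, adj a b → adj b c → ¬ adj a c) (v : V) (hv : v ∈ S) :
    ((S.filter fun u => u ≠ v ∧ ¬ adj v u).card : ℝ) = S.card - 1 - eb adj {v} S ∧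
    eb adj (S.filter fun u => u ≠ v ∧ ¬ adj v u) (S.filter fun u => u ≠ v ∧ ¬ adj v u) =
      eb adj S S - 2 * eb adj (S.filter (adj v)) S := by
  set N := S.filter (adj v) with hN
  set S' := S.filter fun u => u ≠ v ∧ ¬ adj v u with hS'
  have hd1 : Disjoint N S' := by
    rw [hN, hS', disjoint_filter]
    intro u _ h1 h2
    exact h2.2 h1
  have hd2 : Disjoint {v} (N ∪ S') := by
    rw [disjoint_singleton_left]
    simp only [hN, hS', mem_union, mem_filter, not_or, not_and]
    exact ⟨fun _ => hi v, fun _ h => absurd rfl h⟩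
  have hU : S = {v} ∪ (N ∪ S') := by
    ext u
    simp only [hN, hS', mem_union, mem_filter, mem_singleton]
    constructor
    · intro hu
      by_cases h1 : u = v
      · exact Or.inl h1
      · by_cases h2 : adj v u
        · exact Or.inr (Or.inl ⟨hu, h2⟩)
        · exact Or.inr (Or.inr ⟨hu, h1, h2⟩)
    · rintro (h | h | h)
      · rw [h]; exact hv
      · exact h.1
      · exact h.1
  have e1 : eb adj {v} {v} = 0 := by simp [eb, am, hi]
  have e2 : eb adj {v} S' = 0 := by
    unfold eb
    refine sum_eq_zero fun x hx => sum_eq_zero fun y hy => ?_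
    rw [mem_singleton] at hx
    subst hx
    unfold am
    rw [if_neg (mem_filter.1 hy).2.2]
  have e3 : eb adj {v} N = N.card := by
    unfold eb
    rw [sum_singleton, sum_congr rfl fun y hy => show am adj v y = 1 by
      unfold am; rw [if_pos (mem_filter.1 hy).2]]
    simp
  have e4 : eb adj N N = 0 := by
    unfold eb
    refine sum_eq_zero fun x hx => sum_eq_zero fun y hy => ?_
    unfold am
    obtain ⟨hx1, hx2⟩ := mem_filter.1 hx
    obtain ⟨hy1, hy2⟩ := mem_filter.1 hy
    rw [if_neg (htf x hx1 v hv y hy1 (hs _ _ hx2) hy2)]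
  have hcard : (S.card : ℝ) = 1 + (N.card + S'.card) := by
    conv_lhs => rw [hU]
    rw [card_union_of_disjoint hd2, card_union_of_disjoint hd1, card_singleton]
    push_cast
    ring
  have hvS : eb adj {v} S = N.card := by
    conv_lhs => rw [hU]
    rw [eb_union_right adj _ hd2, eb_union_right adj _ hd1, e1, e2, e3]
    ring
  refine ⟨by rw [hvS, hcard]; ring, ?_⟩
  have f1 : eb adj N S = N.card + eb adj N S' := by
    conv_lhs => rw [hU]
    rw [eb_union_right adj _ hd2, eb_union_right adj _ hd1, e4, eb_comm adj hs N {v}, e3]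
    ring
  have f2 : ∀ Q, eb adj S Q = eb adj {v} Q + (eb adj N Q + eb adj S' Q) := by
    intro Q
    conv_lhs => rw [hU]
    rw [eb_union_left adj hd2, eb_union_left adj hd1]
  have f3 : eb adj S' S = eb adj N S' + eb adj S' S' := by
    conv_lhs => rw [hU]
    rw [eb_union_right adj _ hd2, eb_union_right adj _ hd1, eb_comm adj hs S' {v}, e2,
      eb_comm adj hs S' N]
    ring
  rw [f2, hvS, f3, f1]
  ring

theorem shearer [DecidableEq V] (hs : ∀ a b, adj a b → adj b a) (hi : ∀ a, ¬ adj a a) (m : ℕ) :
    ∀ S : Finset V, S.card = m →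
    (∀ a ∈ S, ∀ b ∈ S, ∀ c ∈ S, adj a b → adj b c → ¬ adj a c) →
    ∃ I ⊆ S, (∀ a ∈ I, ∀ b ∈ I, ¬ adj a b) ∧
      (S.card : ℝ) * sf (eb adj S S / S.card) ≤ I.card := by
  induction m using Nat.strong_induction_on with
  | _ m ih =>
    intro S hm htf
    rcases S.eq_empty_or_nonempty with h0 | hne
    · subst h0
      exact ⟨∅, Subset.rfl, fun a ha => absurd ha (notMem_empty a), by simp⟩
    have hn : (0 : ℝ) < S.card := by exact_mod_cast hne.card_pos
    set n : ℝ := (S.card : ℝ) with hnd
    set d : ℝ := eb adj S S / n with hd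
    have hD : eb adj S S = n * d := by rw [hd]; field_simp
    have hd0 : 0 ≤ d := div_nonneg (eb_nonneg adj S S) hn.le
    rcases hd0.lt_or_eq with hpos | hzero
    · -- the averaging
      let S' : V → Finset V := fun v => S.filter fun u => u ≠ v ∧ ¬ adj v u
      let g : V → ℝ := fun v => 1 + (S' v).card * sf d -
        (eb adj (S' v) (S' v) - (S' v).card * d) * sg d
      have hstep := fun v hv => step adj hs hi S htf v hv
      have hs1 : ∑ v ∈ S, eb adj {v} S = eb adj S S := by
        unfold eb
        exact sum_congr rfl fun x _ => by rw [sum_singleton]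
      have hs2 : ∑ v ∈ S, eb adj (S.filter (adj v)) S = ∑ u ∈ S, (∑ w ∈ S, am adj u w) ^ 2 := by
        have h1 : ∀ v ∈ S, eb adj (S.filter (adj v)) S =
            ∑ u ∈ S, am adj v u * ∑ w ∈ S, am adj u w := by
          intro v _
          unfold eb
          rw [sum_filter]
          refine sum_congr rfl fun u _ => ?_
          by_cases h : adj v u
          · simp only [am, if_pos h, one_mul]
          · simp only [am, if_neg h, zero_mul]
        rw [sum_congr rfl h1, sum_comm]
        refine sum_congr rfl fun u _ => ?_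
        rw [← sum_mul, sq]
        congr 1
        refine sum_congr rfl fun v _ => ?_
        unfold am
        have : adj v u ↔ adj u v := ⟨hs _ _, hs _ _⟩
        simp only [this]
      have hs3 : n * d ^ 2 ≤ ∑ u ∈ S, (∑ w ∈ S, am adj u w) ^ 2 := by
        have h1 := sq_sum_le_card_mul_sum_sq (s := S) (f := fun u => ∑ w ∈ S, am adj u w)
        have h2 : ∑ u ∈ S, ∑ w ∈ S, am adj u w = n * d := hD
        rw [h2, ← hnd] at h1
        have h3 : n * (n * d ^ 2) ≤ n * ∑ u ∈ S, (∑ w ∈ S, am adj u w) ^ 2 := by
          calc n * (n * d ^ 2) = (n * d) ^ 2 := by ring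
            _ ≤ _ := h1
        exact le_of_mul_le_mul_left h3 hn
      have hsum : ∑ _v ∈ S, n * sf d ≤ ∑ v ∈ S, g v := by
        have h1 : ∀ v ∈ S, g v = 1 + (n - 1 - eb adj {v} S) * sf d -
            ((n * d - 2 * eb adj (S.filter (adj v)) S) - (n - 1 - eb adj {v} S) * d) * sg d := by
          intro v hv
          obtain ⟨a1, a2⟩ := hstep v hv
          simp only [g, S']
          rw [a1, a2, hD]
        rw [sum_congr rfl h1]
        have h2 : ∑ v ∈ S, (1 + (n - 1 - eb adj {v} S) * sf d -
            ((n * d - 2 * eb adj (S.filter (adj v)) S) - (n - 1 - eb adj {v} S) * d) * sg d) =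
            n * (1 + (n - 1) * sf d - (n * d - (n - 1) * d) * sg d) -
              (sf d + d * sg d) * ∑ v ∈ S, eb adj {v} S +
              2 * sg d * ∑ v ∈ S, eb adj (S.filter (adj v)) S := by
          have hconst : ∀ c : ℝ, n * c = ∑ _v ∈ S, c := fun c => by
            rw [sum_const, nsmul_eq_mul]
          rw [mul_sum, mul_sum, hconst (1 + (n - 1) * sf d - (n * d - (n - 1) * d) * sg d),
            ← sum_sub_distrib, ← sum_add_distrib]
          refine sum_congr rfl fun v _ => ?_
          ring
        rw [h2, hs1, hs2, hD, sum_const, nsmul_eq_mul, ← hnd]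
        have h3 := sf_ode hpos
        have h4 := mul_le_mul_of_nonneg_left hs3 (mul_nonneg zero_le_two (sg_nonneg (d := d)))
        have h5 : n * (n * sf d) = n * (1 + (n - 1) * sf d - (n * d - (n - 1) * d) * sg d) -
            (sf d + d * sg d) * (n * d) + 2 * sg d * (n * d ^ 2) -
            n * (1 - ((1 + d) * sf d + (d - d ^ 2) * sg d)) := by ring
        rw [h5, h3]
        linarith
      obtain ⟨v, hv, hvg⟩ := exists_le_of_sum_le hne hsum
      have hlt : (S' v).card < m := by
        rw [← hm]
        refine card_lt_card (filter_ssubset.2 ⟨v, hv, ?_⟩)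
        simp
      obtain ⟨I, hIS, hI, hIc⟩ := ih _ hlt (S' v) rfl fun a ha b hb c hc =>
        htf a (mem_of_mem_filter a ha) b (mem_of_mem_filter b hb) c (mem_of_mem_filter c hc)
      have hvI : v ∉ I := fun h => (mem_filter.1 (hIS h)).2.1 rfl
      refine ⟨insert v I, ?_, ?_, ?_⟩
      · intro u hu
        rcases mem_insert.1 hu with h | h
        · rw [h]; exact hv
        · exact mem_of_mem_filter u (hIS h)
      · intro a ha b hb hab
        rcases mem_insert.1 ha with h | h <;> rcases mem_insert.1 hb with h' | h'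
        · subst h; subst h'; exact hi _ hab
        · subst h; exact (mem_filter.1 (hIS h')).2.2 hab
        · subst h'; exact (mem_filter.1 (hIS h)).2.2 (hs _ _ hab)
        · exact hI a h b h' hab
      · rw [card_insert_of_notMem hvI]
        push_cast
        refine hvg.trans ?_
        simp only [g]
        have key : (S' v).card * sf d - (eb adj (S' v) (S' v) - (S' v).card * d) * sg d ≤
            ((S' v).card : ℝ) * sf (eb adj (S' v) (S' v) / (S' v).card) := by
          rcases (Nat.zero_le (S' v).card).lt_or_eq with hp | hz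
          · have hp' : (0 : ℝ) < (S' v).card := by exact_mod_cast hp
            have ht := sf_tangent hpos (div_nonneg (eb_nonneg adj (S' v) (S' v)) hp'.le)
            have h6 := mul_le_mul_of_nonneg_left ht hp'.le
            refine le_trans (le_of_eq ?_) h6
            generalize sf d = x1
            generalize sg d = x2
            generalize eb adj (S' v) (S' v) = x3
            generalize ((S' v).card : ℝ) = x4 at hp' ⊢
            field_simp
          · have h7 : S' v = ∅ := card_eq_zero.1 hz.symm
            rw [h7]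
            simp [eb]
        linarith
    · refine ⟨S, Subset.rfl, fun a ha b hb hab => ?_, ?_⟩
      · have h1 : eb adj S S = 0 := by rw [hD, ← hzero, mul_zero]
        have h2 : 1 ≤ eb adj S S := by
          have h3 : am adj a b ≤ eb adj S S := by
            have h0 : ∀ x y, 0 ≤ am adj x y := fun x y => by unfold am; split_ifs <;> norm_num
            calc am adj a b ≤ ∑ y ∈ S, am adj a y :=
                  single_le_sum (f := fun y => am adj a y) (fun y _ => h0 a y) hb
              _ ≤ _ := single_le_sum (f := fun x => ∑ y ∈ S, am adj x y)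
                  (fun x _ => sum_nonneg fun y _ => h0 x y) ha
          refine le_trans ?_ h3
          unfold am
          rw [if_pos hab]
        linarith
      · rw [← hzero, sf_zero, mul_one]

end graph

end Pool.Agent.U279.PR
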