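import Pool.Agent.U279.PR.Up2
import Pool.Agent.U279.PR.Shearer

/-!
# Random points of the torus: close pairs and close triples
-/

set_option autoImplicit false

namespace Pool.Agent.U279.PR

open MeasureTheory Set Finset ProbabilityTheory
open scoped ENNReal NNReal
open Pool.Agent.N549.HG

section resample

variable {Ω : Type} [MeasurableSpace Ω] (μ : Measure Ω) [IsProbabilityMeasure μ] {N : ℕ}

/-- Resampling a coordinate. -/
theorem resample (j : Fin N) :
    MeasurePreserving (fun p : (Fin N → Ω) × Ω => Function.update p.1 j p.2)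
      ((Measure.pi fun _ : Fin N => μ).prod μ) (Measure.pi fun _ : Fin N => μ) := by
  have hm : Measurable fun p : (Fin N → Ω) × Ω => Function.update p.1 j p.2 := by
    refine measurable_pi_iff.2 fun i => ?_
    by_cases h : i = j
    · subst h
      simpa using measurable_snd
    · simp only [Function.update_of_ne h]
      exact (measurable_pi_apply i).comp measurable_fst
  refine ⟨hm, ?_⟩
  refine (Measure.pi_eq fun s hs => ?_).symm
  rw [Measure.map_apply hm (MeasurableSet.univ_pi hs)]
  have h1 : (fun p : (Fin N → Ω) × Ω => Function.update p.1 j p.2) ⁻¹' (Set.univ.pi s) =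
      (Set.univ.pi (Function.update s j Set.univ)) ×ˢ (s j) := by
    ext p
    simp only [Set.mem_preimage, Set.mem_univ_pi, Set.mem_prod]
    constructor
    · intro h
      refine ⟨fun i => ?_, by simpa using h j⟩
      by_cases hi : i = j
      · subst hi; simp
      · have := h i
        simpa [hi] using this
    · rintro ⟨ha, hb⟩ i
      by_cases hi : i = j
      · subst hi; simpa using hb
      · have := ha i
        simpa [hi] using this
  rw [h1, Measure.prod_prod, Measure.pi_pi, ← Finset.mul_prod_erase univ _ (Finset.mem_univ j),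
    ← Finset.mul_prod_erase univ (fun i => μ (s i)) (Finset.mem_univ j)]
  simp only [Function.update_self, measure_univ, one_mul]
  rw [mul_comm]
  congr 1
  refine Finset.prod_congr rfl fun i hi => ?_
  rw [Function.update_of_ne (Finset.ne_of_mem_erase hi)]

theorem lint_resample (j : Fin N) (f : (Fin N → Ω) → ℝ≥0∞) (hf : Measurable f) :
    ∫⁻ X, f X ∂(Measure.pi fun _ : Fin N => μ) =
      ∫⁻ X, ∫⁻ t, f (Function.update X j t) ∂μ ∂(Measure.pi fun _ : Fin N => μ) := by
  rw [← (resample μ j).lintegral_comp hf]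
  exact lintegral_prod (fun p : (Fin N → Ω) × Ω => f (Function.update p.1 j p.2))
    (hf.comp (resample μ j).measurable).aemeasurable

theorem meas_update (j : Fin N) (f : (Fin N → Ω) → ℝ≥0∞) (hf : Measurable f) :
    Measurable fun X => ∫⁻ t, f (Function.update X j t) ∂μ :=
  (hf.comp (resample μ j).measurable).lintegral_prod_right'

/-- A relation between the coordinates `i` and `j` which has constant probability for each value of
the coordinate `i` is independent of the events which do not depend on `j`. -/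
theorem indep_gen (E : Ω → Ω → Prop) (hE : MeasurableSet {p : Ω × Ω | E p.1 p.2}) (v : ℝ≥0∞)
    (hv : ∀ x, μ {y | E x y} = v) {i j : Fin N} (hij : i ≠ j) (A : Set (Fin N → Ω))
    (hA : MeasurableSet A) (hAj : ∀ X t, Function.update X j t ∈ A ↔ X ∈ A) :
    (Measure.pi fun _ : Fin N => μ) (A ∩ {X | E (X i) (X j)}) =
      (Measure.pi fun _ : Fin N => μ) A * v := by
  have hm : Measurable fun X : Fin N → Ω => (X i, X j) :=
    (measurable_pi_apply i).prodMk (measurable_pi_apply j)
  have hB : MeasurableSet {X : Fin N → Ω | E (X i) (X j)} := hm hE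
  rw [← lintegral_indicator_one (hA.inter hB), lint_resample μ j _
    (measurable_one.indicator (hA.inter hB)), ← lintegral_indicator_one hA,
    ← lintegral_mul_const _ (measurable_one.indicator hA)]
  refine lintegral_congr fun X => ?_
  by_cases hX : X ∈ A
  · have h1 : ∀ t, (A ∩ {X : Fin N → Ω | E (X i) (X j)}).indicator 1 (Function.update X j t) =
        ({y | E (X i) y} : Set Ω).indicator (1 : Ω → ℝ≥0∞) t := by
      intro t
      by_cases ht : E (X i) t
      · rw [Set.indicator_of_mem, Set.indicator_of_mem]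
        · rfl
        · exact ht
        · refine ⟨(hAj X t).2 hX, ?_⟩
          simpa [Function.update_of_ne hij] using ht
      · rw [Set.indicator_of_notMem, Set.indicator_of_notMem]
        · exact ht
        · rintro ⟨-, h⟩
          apply ht
          simpa [Function.update_of_ne hij] using h
    rw [lintegral_congr h1, lintegral_indicator_one, hv, Set.indicator_of_mem hX]
    · simp
    · have : Measurable fun y : Ω => (X i, y) := measurable_const.prodMk measurable_id
      exact this hE
  · have h1 : ∀ t, (A ∩ {X : Fin N → Ω | E (X i) (X j)}).indicator 1 (Function.update X j t) =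
        (0 : ℝ≥0∞) := by
      intro t
      rw [Set.indicator_of_notMem]
      rintro ⟨h, -⟩
      exact hX ((hAj X t).1 h)
    rw [lintegral_congr h1, Set.indicator_of_notMem hX]
    simp

/-- Close triples. -/
theorem triple_gen (c : Ω → Ω → ℝ≥0∞) (hc : Measurable fun p : Ω × Ω => c p.1 p.2) (b : ℝ≥0∞)
    (hb : ∀ x, ∫⁻ u, ∫⁻ t, c x u * (c x t * c u t) ∂μ ∂μ ≤ b) {i j k : Fin N} (hij : i ≠ j)
    (hik : i ≠ k) (hjk : j ≠ k) :
    ∫⁻ X, c (X i) (X j) * (c (X i) (X k) * c (X j) (X k)) ∂(Measure.pi fun _ : Fin N => μ) ≤ b := by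
  have hm : ∀ a b : Fin N, Measurable fun X : Fin N → Ω => c (X a) (X b) := fun a b => by
    have h : Measurable fun X : Fin N → Ω => (X a, X b) :=
      (measurable_pi_apply a).prodMk (measurable_pi_apply b)
    exact hc.comp h
  have hf : Measurable fun X : Fin N → Ω => c (X i) (X j) * (c (X i) (X k) * c (X j) (X k)) :=
    (hm i j).mul ((hm i k).mul (hm j k))
  rw [lint_resample μ k _ hf, lint_resample μ j _ (meas_update μ k _ hf)]
  have h1 : ∀ X : Fin N → Ω, ∀ u t, Function.update (Function.update X j u) k t i = X i ∧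
      Function.update (Function.update X j u) k t j = u ∧
      Function.update (Function.update X j u) k t k = t := by
    intro X u t
    refine ⟨?_, ?_, ?_⟩
    · rw [Function.update_of_ne hik, Function.update_of_ne hij]
    · rw [Function.update_of_ne hjk, Function.update_self]
    · rw [Function.update_self]
  calc _ = ∫⁻ X : Fin N → Ω, ∫⁻ u, ∫⁻ t, c (X i) u * (c (X i) t * c u t) ∂μ ∂μ
        ∂(Measure.pi fun _ : Fin N => μ) := by
        refine lintegral_congr fun X => lintegral_congr fun u => lintegral_congr fun t => ?_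
        obtain ⟨e1, e2, e3⟩ := h1 X u t
        rw [e1, e2, e3]
    _ ≤ ∫⁻ _ : Fin N → Ω, b ∂(Measure.pi fun _ : Fin N => μ) := lintegral_mono fun X => hb (X i)
    _ = b := by simp

end resample

/-! ### Close pairs and triples on the torus -/

variable {n N : ℕ} {r : ℝ}

theorem meas_near : MeasurableSet {p : Torus n × Torus n | sqd p.1 p.2 < r ^ 2} :=
  measurableSet_lt (meas_sqd n) measurable_const

theorem vol_near' (hr : 0 < r) (hr2 : r ≤ 1 / 2) (x : Torus n) :
    vol n {y | sqd x y < r ^ 2} = ENNReal.ofReal (ballVol n r) := by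
  rw [← Pool.Agent.N457.HG.Torus.vol_near n hr hr2 x]
  congr 1
  ext y
  simp only [Set.mem_ofPred_eq]
  rw [Pool.Agent.N342.HG.sqd_comm]

/-- The event that two points are close. -/
def nrE (n N : ℕ) (r : ℝ) (p : Fin N × Fin N) : Set (Fin N → Torus n) :=
  {X | sqd (X p.1) (X p.2) < r ^ 2}

theorem nrE_swap (p : Fin N × Fin N) : nrE n N r (p.2, p.1) = nrE n N r p := by
  ext X
  simp only [nrE, Set.mem_ofPred_eq]
  rw [Pool.Agent.N342.HG.sqd_comm]

theorem nrE_meas (p : Fin N × Fin N) : MeasurableSet (nrE n N r p) := by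
  have hm : Measurable fun X : Fin N → Torus n => (X p.1, X p.2) :=
    (measurable_pi_apply p.1).prodMk (measurable_pi_apply p.2)
  exact hm meas_near

theorem nrE_inter (hr : 0 < r) (hr2 : r ≤ 1 / 2) {p : Fin N × Fin N} (hp : p.1 ≠ p.2)
    (A : Set (Fin N → Torus n)) (hA : MeasurableSet A)
    (hAj : ∀ X t, Function.update X p.2 t ∈ A ↔ X ∈ A) :
    law n N (A ∩ nrE n N r p) = law n N A * ENNReal.ofReal (ballVol n r) :=
  indep_gen (vol n) (fun x y => sqd x y < r ^ 2) meas_near _ (vol_near' hr hr2) hp A hA hAj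

theorem nrE_one (hr : 0 < r) (hr2 : r ≤ 1 / 2) {p : Fin N × Fin N} (hp : p.1 ≠ p.2) :
    law n N (nrE n N r p) = ENNReal.ofReal (ballVol n r) := by
  have h := nrE_inter (n := n) hr hr2 hp Set.univ MeasurableSet.univ fun X t => by simp
  simpa using h

theorem nrE_update (p : Fin N × Fin N) (j : Fin N) (h1 : j ≠ p.1) (h2 : j ≠ p.2)
    (X : Fin N → Torus n) (t : Torus n) :
    Function.update X j t ∈ nrE n N r p ↔ X ∈ nrE n N r p := by
  simp only [nrE, Set.mem_ofPred_eq, Function.update_of_ne h1.symm, Function.update_of_ne h2.symm]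

theorem nrE_two (hr : 0 < r) (hr2 : r ≤ 1 / 2) {p q : Fin N × Fin N} (hp : p.1 < p.2)
    (hq : q.1 < q.2) (hpq : p ≠ q) :
    law n N (nrE n N r p ∩ nrE n N r q) = ENNReal.ofReal (ballVol n r) ^ 2 := by
  rw [sq]
  by_cases h : q.2 ≠ p.1 ∧ q.2 ≠ p.2
  · rw [nrE_inter hr hr2 hq.ne _ (nrE_meas p) (nrE_update p q.2 h.1 h.2), nrE_one hr hr2 hp.ne]
  · have h1 : q.1 ≠ p.1 ∧ q.1 ≠ p.2 := by
      by_cases h2 : q.2 = p.1
      · have : q.1 < p.1 := by rw [← h2]; exact hq
        exact ⟨this.ne, (this.trans hp).ne⟩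
      · have h3 : q.2 = p.2 := by
          by_contra h4
          exact h ⟨h2, h4⟩
        refine ⟨fun h4 => hpq (Prod.ext h4.symm h3.symm), ?_⟩
        rw [← h3]
        exact hq.ne
    have hsw : nrE n N r q = nrE n N r (q.2, q.1) := (nrE_swap q).symm
    rw [hsw]
    have := nrE_inter (n := n) hr hr2 (p := (q.2, q.1)) hq.ne' _ (nrE_meas (n := n) (r := r) p)
      (nrE_update p q.1 h1.1 h1.2)
    rw [this, nrE_one hr hr2 hp.ne]

/-- The indicator of a close pair. -/
noncomputable def ind (n N : ℕ) (r : ℝ) (p : Fin N × Fin N) : (Fin N → Torus n) → ℝ :=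
  (nrE n N r p).indicator 1

theorem ind_memLp (p : Fin N × Fin N) : MemLp (ind n N r p) 2 (law n N) := by
  unfold ind
  exact (memLp_const (1 : ℝ)).indicator (nrE_meas p)

theorem ind_int (hr : 0 < r) (hr2 : r ≤ 1 / 2) {p : Fin N × Fin N} (hp : p.1 < p.2) :
    ∫ X, ind n N r p X ∂(law n N) = ballVol n r := by
  unfold ind
  rw [integral_indicator_one (nrE_meas p), measureReal_def, nrE_one hr hr2 hp.ne,
    ENNReal.toReal_ofReal (ballVol_pos hr).le]

theorem ind_cov (hr : 0 < r) (hr2 : r ≤ 1 / 2) {p q : Fin N × Fin N} (hp : p.1 < p.2)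
    (hq : q.1 < q.2) (hpq : p ≠ q) : cov[ind n N r p, ind n N r q; law n N] = 0 := by
  rw [covariance_eq_sub (ind_memLp p) (ind_memLp q), ind_int hr hr2 hp, ind_int hr hr2 hq]
  have h : ind n N r p * ind n N r q = (nrE n N r p ∩ nrE n N r q).indicator 1 := by
    unfold ind
    rw [Set.inter_indicator_one]
  rw [h, integral_indicator_one ((nrE_meas p).inter (nrE_meas q)), measureReal_def,
    nrE_two hr hr2 hp hq hpq, ENNReal.toReal_pow, ENNReal.toReal_ofReal (ballVol_pos hr).le]
  ring

theorem ind_var (hr : 0 < r) (hr2 : r ≤ 1 / 2) {p : Fin N × Fin N} (hp : p.1 < p.2) :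
    Var[ind n N r p; law n N] ≤ ballVol n r := by
  refine (variance_le_expectation_sq (ind_memLp p).aestronglyMeasurable).trans (le_of_eq ?_)
  rw [← ind_int (n := n) hr hr2 hp]
  congr 1
  funext X
  unfold ind
  by_cases h : X ∈ nrE n N r p
  · simp [Set.indicator_of_mem h]
  · simp [Set.indicator_of_notMem h]

/-- The pairs. -/
def prs (N : ℕ) : Finset (Fin N × Fin N) := univ.filter fun p => p.1 < p.2

/-- The number of close pairs is concentrated. -/
theorem edges_le (hr : 0 < r) (hr2 : r ≤ 1 / 2) {η : ℝ} (hη : 0 < η)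
    (hC : 0 < (prs N).card) :
    (law n N).real {X | (1 + η) * ((prs N).card * ballVol n r) ≤ ∑ p ∈ prs N, ind n N r p X} ≤
      1 / (η ^ 2 * ((prs N).card * ballVol n r)) := by
  have hv := ballVol_pos (n := n) hr
  have hC' : (0 : ℝ) < (prs N).card := by exact_mod_cast hC
  set W : (Fin N → Torus n) → ℝ := fun X => ∑ p ∈ prs N, ind n N r p X with hW
  have hmem : MemLp W 2 (law n N) := memLp_finsetSum _ fun p _ => ind_memLp p
  have hlt : ∀ p ∈ prs N, p.1 < p.2 := fun p hp => (Finset.mem_filter.1 hp).2
  have hint : ∫ X, W X ∂(law n N) = (prs N).card * ballVol n r := by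
    rw [hW, integral_finsetSum _ fun p _ => (ind_memLp p).integrable one_le_two,
      Finset.sum_congr rfl fun p hp => ind_int hr hr2 (hlt p hp), Finset.sum_const, nsmul_eq_mul]
  have hvar : Var[W; law n N] ≤ (prs N).card * ballVol n r := by
    rw [hW, variance_fun_sum' fun p _ => ind_memLp p]
    have h1 : ∀ p ∈ prs N, ∑ q ∈ prs N, cov[ind n N r p, ind n N r q; law n N] ≤
        ballVol n r := by
      intro p hp
      rw [Finset.sum_eq_single_of_mem p hp fun q hq hqp =>
        ind_cov hr hr2 (hlt p hp) (hlt q hq) hqp.symm,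
        covariance_self (ind_memLp p).aemeasurable]
      exact ind_var hr hr2 (hlt p hp)
    refine (Finset.sum_le_sum h1).trans ?_
    rw [Finset.sum_const, nsmul_eq_mul]
  have hc : 0 < η * ((prs N).card * ballVol n r) := by positivity
  have h := meas_ge_le_variance_div_sq hmem hc
  rw [hint] at h
  have hsub : {X | (1 + η) * ((prs N).card * ballVol n r) ≤ W X} ⊆
      {X | η * ((prs N).card * ballVol n r) ≤ |W X - (prs N).card * ballVol n r|} := by
    intro X hX
    simp only [Set.mem_ofPred_eq] at hX ⊢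
    refine le_trans ?_ (le_abs_self _)
    linarith
  have h2 := (measure_mono hsub).trans h
  have h3 := ENNReal.toReal_mono ENNReal.ofReal_ne_top h2
  have h0 : 0 ≤ Var[W; law n N] / (η * ((prs N).card * ballVol n r)) ^ 2 :=
    div_nonneg (variance_nonneg _ _) (sq_nonneg _)
  rw [ENNReal.toReal_ofReal h0] at h3
  refine h3.trans ?_
  rw [div_le_div_iff₀ (by positivity) (by positivity)]
  have h4 := mul_le_mul_of_nonneg_right hvar
    (show 0 ≤ η ^ 2 * ((prs N).card * ballVol n r) by positivity)
  refine h4.trans (le_of_eq ?_)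
  ring

/-- The event that three points are mutually close. -/
def tri (n N : ℕ) (r : ℝ) (i j k : Fin N) : Set (Fin N → Torus n) :=
  nrE n N r (i, j) ∩ (nrE n N r (i, k) ∩ nrE n N r (j, k))

theorem tri_meas (i j k : Fin N) : MeasurableSet (tri n N r i j k) :=
  (nrE_meas _).inter ((nrE_meas _).inter (nrE_meas _))

theorem tri_le (hn : 1 ≤ n) (hr : 0 < r) (hr4 : r ≤ 1 / 4) {i j k : Fin N} (hij : i ≠ j)
    (hik : i ≠ k) (hjk : j ≠ k) :
    law n N (tri n N r i j k) ≤
      ENNReal.ofReal (2 * (Real.sqrt 3 / 2) ^ n * ballVol n r * ballVol n r) := by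
  have hv := ballVol_pos (n := n) hr
  let c : Torus n → Torus n → ℝ≥0∞ := fun x y => ({y | sqd y x < r ^ 2} : Set (Torus n)).indicator 1 y
  have hc : Measurable fun p : Torus n × Torus n => c p.1 p.2 := by
    have h1 : (fun p : Torus n × Torus n => c p.1 p.2) =
        ({p : Torus n × Torus n | sqd p.1 p.2 < r ^ 2} : Set _).indicator 1 := by
      funext p
      by_cases h : sqd p.2 p.1 < r ^ 2
      · have h' : sqd p.1 p.2 < r ^ 2 := by rwa [Pool.Agent.N342.HG.sqd_comm]
        simp only [c]
        rw [Set.indicator_of_mem (show p.2 ∈ {y | sqd y p.1 < r ^ 2} from h),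
          Set.indicator_of_mem (show p ∈ {p : Torus n × Torus n | sqd p.1 p.2 < r ^ 2} from h')]
        rfl
      · have h' : ¬ sqd p.1 p.2 < r ^ 2 := by rwa [Pool.Agent.N342.HG.sqd_comm]
        simp only [c]
        rw [Set.indicator_of_notMem (show p.2 ∉ {y | sqd y p.1 < r ^ 2} from h),
          Set.indicator_of_notMem (show p ∉ {p : Torus n × Torus n | sqd p.1 p.2 < r ^ 2} from h')]
    rw [h1]
    exact measurable_one.indicator meas_near
  have hb : ∀ x, ∫⁻ u, ∫⁻ t, c x u * (c x t * c u t) ∂(vol n) ∂(vol n) ≤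
      ENNReal.ofReal (2 * (Real.sqrt 3 / 2) ^ n * ballVol n r * ballVol n r) := by
    intro x
    have hT := Pool.Agent.N457.HG.Torus.measurableSet_near n x r
    have h1 : ∀ u, ∫⁻ t, c x u * (c x t * c u t) ∂(vol n) =
        ({y | sqd y x < r ^ 2} : Set (Torus n)).indicator
          (fun u => vol n ({y | sqd y x < r ^ 2} ∩ {y | sqd y u < r ^ 2})) u := by
      intro u
      have hU := Pool.Agent.N457.HG.Torus.measurableSet_near n u r
      have h2 : ∀ t, c x t * c u t =
          (({y | sqd y x < r ^ 2} ∩ {y | sqd y u < r ^ 2} : Set (Torus n))).indicator 1 t := by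
        intro t
        rw [Set.inter_indicator_one]
        rfl
      by_cases hu : u ∈ ({y | sqd y x < r ^ 2} : Set (Torus n))
      · have h3 : c x u = 1 := by
          simp only [c]
          rw [Set.indicator_of_mem hu]
          rfl
        simp only [h3, one_mul, h2]
        rw [lintegral_indicator_one (hT.inter hU), Set.indicator_of_mem hu]
      · have h3 : c x u = 0 := by
          simp only [c]
          rw [Set.indicator_of_notMem hu]
        simp only [h3, zero_mul]
        rw [Set.indicator_of_notMem hu]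
        simp
    simp only [h1]
    rw [lintegral_indicator hT]
    have h2 := Pool.Agent.N342.HG.loc Pool.Agent.N457.HG.Torus.torus n hn r hr hr4 x _ hT le_rfl
    refine h2.trans (le_of_eq ?_)
    rw [Pool.Agent.N457.HG.Torus.vol_near n hr (by linarith) x, ← ENNReal.ofReal_mul (by positivity)]
  have h := triple_gen (vol n) c hc _ hb hij hik hjk
  refine le_trans (le_of_eq ?_) h
  rw [← lintegral_indicator_one (tri_meas i j k)]
  refine lintegral_congr fun X => ?_
  have e : ∀ a b : Fin N, c (X a) (X b) = (nrE n N r (a, b)).indicator 1 X := by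
    intro a b
    by_cases h : sqd (X b) (X a) < r ^ 2
    · have h' : sqd (X a) (X b) < r ^ 2 := by rwa [Pool.Agent.N342.HG.sqd_comm]
      simp only [c]
      rw [Set.indicator_of_mem (show X b ∈ {y | sqd y (X a) < r ^ 2} from h),
        Set.indicator_of_mem (show X ∈ nrE n N r (a, b) from h')]
      rfl
    · have h' : ¬ sqd (X a) (X b) < r ^ 2 := by rwa [Pool.Agent.N342.HG.sqd_comm]
      simp only [c]
      rw [Set.indicator_of_notMem (show X b ∉ {y | sqd y (X a) < r ^ 2} from h),
        Set.indicator_of_notMem (show X ∉ nrE n N r (a, b) from h')]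
  rw [e, e, e]
  unfold tri
  rw [Set.inter_indicator_one, Set.inter_indicator_one]
  rfl

end Pool.Agent.U279.PR
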