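import Pool.Agent.U279.PR.Up

/-!
# Packings inside random point sets of the torus: the upper bound, asymptotics
-/

set_option autoImplicit false

namespace Pool.Agent.U279.PR

open MeasureTheory Set Finset ProbabilityTheory
open scoped ENNReal NNReal
open Pool.Agent.N549.HG

variable {n N : ℕ} {r : ℝ}

/-- The constant of the upper bound. -/
noncomputable def upc (x : ℝ) : ℝ := if x ≤ y0 / 2 then 2 * x else y0 ^ 2 / (2 * (y0 - x))

theorem upc_nonneg {x : ℝ} (h0 : 0 ≤ x) (h1 : x < y0) : 0 ≤ upc x := by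
  unfold upc
  split_ifs
  · linarith
  · have : 0 < y0 - x := by linarith
    positivity

theorem gap {ε : ℝ} (hε : 0 < ε) : ∃ γ : ℝ, 0 < γ ∧ ∀ x : ℝ, 0 ≤ x → x ≤ y0 - ε →
    ∃ σ : ℝ, 0 ≤ σ ∧ σ ≤ y0 ∧ x ≤ σ ∧ γ ≤ (σ - x) * (upc x + ε) - σ ^ 2 / 2 := by
  have hy := y0_pos
  set δ := min ε (y0 / 2) with hδ
  have hδ0 : 0 < δ := lt_min hε (by linarith)
  have hδ1 : δ ≤ ε := min_le_left _ _
  have hδ2 : δ ≤ y0 / 2 := min_le_right _ _
  refine ⟨min (ε * δ / 2) (min (ε * y0 / 4) (ε ^ 2)), by positivity, fun x h0 h1 => ?_⟩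
  by_cases hx : x ≤ y0 / 2
  · have hu : upc x = 2 * x := by unfold upc; rw [if_pos hx]
    by_cases hx' : x ≤ y0 / 2 - δ / 2
    · refine ⟨2 * x + δ, by positivity, by linarith, by linarith, ?_⟩
      refine (min_le_left _ _).trans ?_
      rw [hu]
      nlinarith [mul_nonneg hε.le h0, mul_nonneg hδ0.le (by linarith : (0 : ℝ) ≤ ε - δ)]
    · push Not at hx'
      refine ⟨y0, hy.le, le_rfl, by linarith, ?_⟩
      refine ((min_le_right _ _).trans (min_le_left _ _)).trans ?_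
      rw [hu]
      have h2 : 0 ≤ y0 / 2 - x := by linarith
      have h3 : y0 / 2 - x ≤ δ / 2 := by linarith
      have h4 : (y0 / 2 - x) ^ 2 ≤ (δ / 2) ^ 2 := pow_le_pow_left₀ h2 h3 2
      have h5 : δ ^ 2 ≤ ε * (y0 / 2) := by
        rw [sq]
        exact mul_le_mul hδ1 hδ2 hδ0.le hε.le
      have h6 : (y0 - x) * (2 * x + ε) - y0 ^ 2 / 2 =
          -2 * (y0 / 2 - x) ^ 2 + ε * (y0 / 2) + ε * (y0 / 2 - x) := by ring
      rw [h6]
      nlinarith [mul_nonneg hε.le h2]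
  · have hu : upc x = y0 ^ 2 / (2 * (y0 - x)) := by unfold upc; rw [if_neg hx]
    refine ⟨y0, hy.le, le_rfl, by linarith, ?_⟩
    refine ((min_le_right _ _).trans (min_le_right _ _)).trans ?_
    rw [hu]
    have h2 : 0 < y0 - x := by linarith
    have h3 : (y0 - x) * (y0 ^ 2 / (2 * (y0 - x)) + ε) - y0 ^ 2 / 2 = ε * (y0 - x) := by
      field_simp
      ring
    rw [h3, sq]
    exact mul_le_mul_of_nonneg_left (by linarith) hε.le

theorem er_le (hn : 1 ≤ n) {σ : ℝ} (h0 : 0 ≤ σ) (h1 : σ ≤ y0) :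
    er n σ ≤ σ ^ 2 / 2 * n ^ 2 + 9 * n := by
  have hnR : (1 : ℝ) ≤ n := by exact_mod_cast hn
  unfold er
  have := Real.pi_lt_d2
  have := y0_lt
  have h2 : σ * n ≤ 1 / 6 * n := mul_le_mul_of_nonneg_right (by linarith) (by linarith)
  nlinarith

/-- **The upper bound, asymptotically.** -/
theorem up_ev {ε : ℝ} (hε : 0 < ε) : ∃ n₀ : ℕ, ∀ n : ℕ, n₀ ≤ n → ∀ r : ℝ, 0 < r → r ≤ 1 / 4 →
    ∀ (x : ℝ) (N : ℕ), 0 ≤ x → x ≤ y0 - ε → N * ballVol n r ≤ Real.exp (x * n) →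
    (law n N).real {X | (upc x + ε) * n ≤ best r X * ballVol n r} ≤ ε := by
  obtain ⟨γ, hγ, hg⟩ := gap hε
  obtain ⟨n₀, hn₀⟩ := exists_nat_ge (max (18 / γ) (2 / (γ * ε)))
  refine ⟨max n₀ 1, fun n hn r hr hr4 x N h0 h1 hN => ?_⟩
  have hn1 : 1 ≤ n := (le_max_right _ _).trans hn
  have hnR : (1 : ℝ) ≤ n := by exact_mod_cast hn1
  have hnn : (n₀ : ℝ) ≤ n := by exact_mod_cast (le_max_left _ _).trans hn
  have hD := ballVol_pos (n := n) hr
  have hD1 : ballVol n r ≤ 1 := (ballVol_le hn1 hr hr4).trans (pow_le_one₀ (by norm_num) (by norm_num))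
  obtain ⟨σ, s0, s1, s2, s3⟩ := hg x h0 h1
  refine (up hn1 hr (by linarith) s0 s1 s2 hN).trans ?_
  have e1 := er_le hn1 s0 s1
  have e2 : er n σ - (σ - x) * (upc x + ε) * n ^ 2 ≤ -(γ / 2 * n ^ 2) := by
    have h2 : 18 / γ ≤ n := (le_max_left _ _).trans (hn₀.trans hnn)
    rw [div_le_iff₀ hγ] at h2
    have h3 : γ * n ^ 2 ≤ ((σ - x) * (upc x + ε) - σ ^ 2 / 2) * n ^ 2 :=
      mul_le_mul_of_nonneg_right s3 (sq_nonneg _)
    nlinarith
  have e3 : (er n σ - (σ - x) * (upc x + ε) * n ^ 2) / ballVol n r ≤ -(γ / 2 * n ^ 2) := by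
    rw [div_le_iff₀ hD]
    refine e2.trans ?_
    have : 0 ≤ γ / 2 * (n : ℝ) ^ 2 := by positivity
    nlinarith
  refine (Real.exp_le_exp.2 e3).trans ?_
  have h2 : 2 / (γ * ε) ≤ n := (le_max_right _ _).trans (hn₀.trans hnn)
  rw [div_le_iff₀ (by positivity)] at h2
  rw [Real.exp_neg]
  have h3 : 1 / ε ≤ γ / 2 * n ^ 2 := by
    rw [div_le_iff₀ hε]
    nlinarith
  have h4 : 1 / ε ≤ Real.exp (γ / 2 * n ^ 2) := by
    have := Real.add_one_le_exp (γ / 2 * (n : ℝ) ^ 2)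
    linarith
  calc (Real.exp (γ / 2 * n ^ 2))⁻¹ ≤ (1 / ε)⁻¹ := inv_anti₀ (by positivity) h4
    _ = ε := by rw [one_div, inv_inv]

end Pool.Agent.U279.PR
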